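import Mathlib

/-! Compactness for systems of linear equations over `ZMod 2`. -/

set_option autoImplicit false

namespace Pool.Agent.H687.TG

theorem colours {X : Type*} (R : (l : ℕ) → (ZMod (l + 1) → X) → Prop)
    (h : ∀ (m : ℕ) (x : Fin m → X), ∃ u : Fin m → ZMod 2, ∀ (l : ℕ) (j : ZMod (l + 1) → Fin m),
      R l (fun q => x (j q)) → ∑ q, u (j q) = 1) :
    ∃ χ : X → ZMod 2, ∀ (l : ℕ) (y : ZMod (l + 1) → X), R l y → ∑ q, χ (y q) = 1 := by
  classical
  letI : TopologicalSpace (ZMod 2) := ⊥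
  haveI : DiscreteTopology (ZMod 2) := ⟨rfl⟩
  have key := (isCompact_univ (X := X → ZMod 2)).inter_iInter_nonempty
    (fun p : {p : (l : ℕ) × (ZMod (l + 1) → X) // R p.1 p.2} =>
      {u : X → ZMod 2 | ∑ q, u (p.1.2 q) = 1})
    (fun p => by
      have h1 : Continuous (fun u : X → ZMod 2 => fun q : ZMod (p.1.1 + 1) => u (p.1.2 q)) :=
        continuous_pi fun q => continuous_apply _
      have h2 : Continuous (fun f : ZMod (p.1.1 + 1) → ZMod 2 => ∑ q, f q) :=
        continuous_of_discreteTopology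
      exact isClosed_singleton.preimage (h2.comp h1))
    (fun s => by
      obtain ⟨Y, hY⟩ : ∃ Y : Finset X, Y = s.biUnion (fun p => Finset.univ.image p.1.2) :=
        ⟨_, rfl⟩
      obtain ⟨u, hu⟩ := h Y.card (fun i => (Y.equivFin.symm i : X))
      refine ⟨fun x => if hx : x ∈ Y then u (Y.equivFin ⟨x, hx⟩) else 0, trivial, ?_⟩
      rw [Set.mem_iInter]
      intro p
      rw [Set.mem_iInter]
      intro hp
      have h1 : ∀ q, p.1.2 q ∈ Y := fun q => by
        rw [hY]
        exact Finset.mem_biUnion.2 ⟨p, hp, Finset.mem_image_of_mem _ (Finset.mem_univ q)⟩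
      have h2 := hu p.1.1 (fun q => Y.equivFin ⟨p.1.2 q, h1 q⟩) (by
        simp only [Equiv.symm_apply_apply]
        exact p.2)
      show ∑ q, (if hx : p.1.2 q ∈ Y then u (Y.equivFin ⟨p.1.2 q, hx⟩) else 0) = 1
      rw [← h2]
      exact Finset.sum_congr rfl fun q _ => dif_pos (h1 q))
  obtain ⟨u, -, hu⟩ := key
  rw [Set.mem_iInter] at hu
  exact ⟨u, fun l y hy => hu ⟨⟨l, y⟩, hy⟩⟩

end Pool.Agent.H687.TG
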