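import Pool.Agent.H687.TG.Poly
import Pool.Agent.H687.TC.Curve

/-! Curves composed of arcs of a finite family. -/

set_option autoImplicit false
open Complex Set Topology Metric

namespace Pool.Agent.H687.TG

open Pool.Agent.H763R2 Pool.Agent.H763R2.An Pool.Agent.H687.K4 Pool.Agent.H687.KC
open Pool.Agent.H763R2.Dm (NoSq)

variable {K m : ℕ}

/-- an arc with a direction -/
abbrev Dart (m : ℕ) := Fin m × Bool

/-- the reversed arc -/
def rv (e : Dart m) : Dart m := (e.1, !e.2)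

theorem rv_rv (e : Dart m) : rv (rv e) = e := by unfold rv; simp

theorem rv_ne (e : Dart m) : rv e ≠ e := by
  intro h
  have := congrArg Prod.snd h
  unfold rv at this
  simp at this

/-- the vertices of the graph at the points -/
def vP (m : ℕ) (x : Fin K) : Fin (K + 2 * m) := ⟨x.val, by omega⟩

/-- the vertices of the graph on the arcs -/
def vd (K : ℕ) (e : Dart m) : Fin (K + 2 * m) :=
  ⟨K + 2 * e.1.val + e.2.toNat, by have := e.1.isLt; have := Bool.toNat_le e.2; omega⟩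

/-- the arc with direction -/
def bd (β : Fin m → ℝ → ℂ) (e : Dart m) (r : ℝ) : ℂ := if e.2 then β e.1 r else β e.1 (1 - r)

/-- initial vertex -/
def src (s t : Fin m → Fin K) (e : Dart m) : Fin K := if e.2 then s e.1 else t e.1

theorem vP_val (x : Fin K) : (vP m x).val = x.val := rfl

theorem vd_val (e : Dart m) : (vd K e).val = K + 2 * e.1.val + e.2.toNat := rfl

theorem vP_lt_vd (x : Fin K) (e : Dart m) : vP m x < vd K e := by
  rw [Fin.lt_def, vP_val, vd_val]; have := x.isLt; omega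

theorem vP_inj {x y : Fin K} (h : vP m x = vP m y) : x = y := by
  have := congrArg Fin.val h
  rw [vP_val, vP_val] at this
  exact Fin.ext this

theorem vd_inj {e f : Dart m} (h : vd K e = vd K f) : e = f := by
  have h1 := congrArg Fin.val h
  rw [vd_val, vd_val] at h1
  have a1 := Bool.toNat_le e.2
  have a2 := Bool.toNat_le f.2
  have h2 : e.1 = f.1 := Fin.ext (by omega)
  have h3 : e.2.toNat = f.2.toNat := by omega
  refine Prod.ext h2 ?_
  cases h4 : e.2 <;> cases h5 : f.2 <;> simp_all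

theorem bd_rv (β : Fin m → ℝ → ℂ) (e : Dart m) (r : ℝ) : bd β (rv e) r = bd β e (1 - r) := by
  unfold bd rv
  cases h : e.2 <;> simp

theorem bd_cont {β : Fin m → ℝ → ℂ} (hc : ∀ i, Continuous (β i)) (e : Dart m) :
    Continuous (bd β e) := by
  unfold bd
  split_ifs
  · exact hc _
  · exact (hc _).comp (by fun_prop)

theorem bd_inj {β : Fin m → ℝ → ℂ} (hi : ∀ i, InjOn (β i) (Icc 0 1)) (e : Dart m) :
    InjOn (bd β e) (Icc 0 1) := by
  unfold bd
  split_ifs
  · exact hi _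
  · intro s hs t ht h
    have := hi _ (show 1 - s ∈ Icc (0:ℝ) 1 from ⟨by linarith [hs.2], by linarith [hs.1]⟩)
      (show 1 - t ∈ Icc (0:ℝ) 1 from ⟨by linarith [ht.2], by linarith [ht.1]⟩) h
    linarith

theorem bd_img (β : Fin m → ℝ → ℂ) (e : Dart m) : bd β e '' Icc 0 1 = β e.1 '' Icc 0 1 := by
  unfold bd
  split_ifs
  · rfl
  · rw [show (fun r => β e.1 (1 - r)) = β e.1 ∘ fun r => 1 - r from rfl, image_comp]
    congr 1
    simp

theorem bd_zero {β : Fin m → ℝ → ℂ} {P : Fin K → ℂ} {s t : Fin m → Fin K}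
    (h0 : ∀ i, β i 0 = P (s i)) (h1 : ∀ i, β i 1 = P (t i)) (e : Dart m) :
    bd β e 0 = P (src s t e) := by
  unfold bd src
  split_ifs
  · exact h0 _
  · rw [sub_zero]; exact h1 _

/-- a map of the graph given by arcs -/
structure Arcs (ψ : (Fin (K + 2 * m) → ℝ) → ℂ) (s t : Fin m → Fin K) (β : Fin m → ℝ → ℂ) :
    Prop where
  eo : ∀ e : Dart m, ∀ r ∈ Icc (0:ℝ) 1, ψ (ep (vP m (src s t e)) (vd K e) r) = bd β e (r / 3)
  em : ∀ e : Dart m, ∀ r ∈ Icc (0:ℝ) 1, ψ (ep (vd K e) (vd K (rv e)) r) = bd β e ((1 + r) / 3)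

open Classical in
/-- images of the vertices -/
noncomputable def Pt (P : Fin K → ℂ) (β : Fin m → ℝ → ℂ) (y : Fin (K + 2 * m)) : ℂ :=
  if h : y.val < K then P ⟨y.val, h⟩ else if h : ∃ e : Dart m, y = vd K e then
    bd β h.choose (1 / 3) else 0

theorem Pt_vP (P : Fin K → ℂ) (β : Fin m → ℝ → ℂ) (x : Fin K) : Pt P β (vP m x) = P x := by
  unfold Pt
  rw [dif_pos (show (vP m x).val < K from x.isLt)]
  rfl

theorem Pt_vd (P : Fin K → ℂ) (β : Fin m → ℝ → ℂ) (e : Dart m) :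
    Pt P β (vd K e) = bd β e (1 / 3) := by
  have h : ∃ f : Dart m, vd K e = vd K f := ⟨e, rfl⟩
  unfold Pt
  rw [dif_neg (show ¬ (vd K e).val < K by rw [vd_val]; omega), dif_pos h]
  rw [← vd_inj h.choose_spec]

theorem ex_psi {P : Fin K → ℂ} {s t : Fin m → Fin K} (β : Fin m → ℝ → ℂ)
    (hc : ∀ i, Continuous (β i)) (h0 : ∀ i, β i 0 = P (s i)) (h1 : ∀ i, β i 1 = P (t i)) :
    ∃ ψ : (Fin (K + 2 * m) → ℝ) → ℂ, ContinuousOn ψ (real ⊤) ∧ Arcs ψ s t β := by
  have hex : ∀ x y : Fin (K + 2 * m), ∃ g : ℝ → ℂ, Continuous g ∧ g 0 = Pt P β x ∧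
      g 1 = Pt P β y ∧
      (∀ e, x = vP m (src s t e) → y = vd K e → ∀ r, g r = bd β e (r / 3)) ∧
      (∀ e, x = vd K e → y = vd K (rv e) → ∀ r, g r = bd β e ((1 + r) / 3)) := by
    intro x y
    by_cases c1 : ∃ e, x = vP m (src s t e) ∧ y = vd K e
    · obtain ⟨e, rfl, rfl⟩ := c1
      refine ⟨fun r => bd β e (r / 3), (bd_cont hc e).comp (by fun_prop), ?_, ?_, ?_, ?_⟩
      · simp only [zero_div]
        rw [bd_zero h0 h1, Pt_vP]
      · simp only
        rw [Pt_vd]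
      · intro e' _ h r
        rw [vd_inj h]
      · intro e' h _ r
        exact absurd h (vP_lt_vd _ _).ne
    by_cases c2 : ∃ e, x = vd K e ∧ y = vd K (rv e)
    · obtain ⟨e, rfl, rfl⟩ := c2
      refine ⟨fun r => bd β e ((1 + r) / 3), (bd_cont hc e).comp (by fun_prop), ?_, ?_, ?_, ?_⟩
      · simp only [add_zero]
        rw [Pt_vd]
      · simp only
        rw [Pt_vd, bd_rv]
        norm_num
      · intro e' h _ r
        exact absurd h.symm (vP_lt_vd _ _).ne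
      · intro e' h _ r
        rw [vd_inj h]
    refine ⟨fun r => ((1 - r : ℝ) : ℂ) * Pt P β x + (r : ℂ) * Pt P β y, by fun_prop,
      by simp, by simp, ?_, ?_⟩
    · exact fun e h h' => absurd ⟨e, h, h'⟩ c1
    · exact fun e h h' => absurd ⟨e, h, h'⟩ c2
  choose g g1 g2 g3 g4 g5 using hex
  obtain ⟨ψ, hψ, hψ2⟩ := glue (Pt P β) g g1 g2 g3
  refine ⟨ψ, hψ, fun e r hr => ?_, fun e r hr => ?_⟩
  · rw [hψ2 _ _ (vP_lt_vd _ _) r hr]
    exact g4 _ _ e rfl rfl r
  · have hne : vd K e ≠ vd K (rv e) := fun h => rv_ne e (vd_inj h).symm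
    rcases lt_or_gt_of_ne hne with h | h
    · rw [hψ2 _ _ h r hr]
      exact g5 _ _ e rfl rfl r
    · rw [ep_symm, hψ2 _ _ h (1 - r) ⟨by linarith [hr.2], by linarith [hr.1]⟩,
        g5 _ _ (rv e) rfl (by rw [rv_rv]) (1 - r), bd_rv]
      congr 1
      ring

variable {l : ℕ}

/-- the walk -/
def wv (s t : Fin m → Fin K) (e : ZMod l → Dart m) (k : ℤ) : Fin (K + 2 * m) :=
  if k % 3 = 0 then vP m (src s t (e ((k / 3 : ℤ) : ZMod l)))
  else if k % 3 = 1 then vd K (e ((k / 3 : ℤ) : ZMod l))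
  else vd K (rv (e ((k / 3 : ℤ) : ZMod l)))

variable {s t : Fin m → Fin K} {e : ZMod l → Dart m}

theorem wv0 (q : ℤ) : wv s t e (3 * q) = vP m (src s t (e (q : ZMod l))) := by
  unfold wv
  rw [if_pos (by omega), show 3 * q / 3 = q by omega]

theorem wv1 (q : ℤ) : wv s t e (3 * q + 1) = vd K (e (q : ZMod l)) := by
  unfold wv
  rw [if_neg (by omega), if_pos (by omega), show (3 * q + 1) / 3 = q by omega]

theorem wv2 (q : ℤ) : wv s t e (3 * q + 2) = vd K (rv (e (q : ZMod l))) := by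
  unfold wv
  rw [if_neg (by omega), if_neg (by omega), show (3 * q + 2) / 3 = q by omega]

theorem wv3 (q : ℤ) : wv s t e (3 * q + 3) = vP m (src s t (e ((q : ZMod l) + 1))) := by
  rw [show 3 * q + 3 = 3 * (q + 1) by ring, wv0]
  push_cast
  rfl

/-- the arcs form a closed curve -/
structure Good0 (s t : Fin m → Fin K) (β : Fin m → ℝ → ℂ) (e : ZMod l → Dart m) : Prop where
  nxt : ∀ q, src s t (rv (e q)) = src s t (e (q + 1))
  ia : Function.Injective fun q => (e q).1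
  is : Function.Injective fun q => src s t (e q)
  disj : ∀ q q', q ≠ q' → ∀ r ∈ Ico (0:ℝ) 1, ∀ r' ∈ Ico (0:ℝ) 1, bd β (e q) r ≠ bd β (e q') r'

/-- the arcs form a closed curve without squares, with different half tangents at the joints -/
structure Good (s t : Fin m → Fin K) (β : Fin m → ℝ → ℂ) (T : Dart m → ℂ) (e : ZMod l → Dart m) :
    Prop extends Good0 s t β e where
  tan : ∀ q, T (rv (e (q - 1))) ≠ T (e q)
  nosq : NoSq (⋃ q, β (e q).1 '' Icc 0 1)

variable {β : Fin m → ℝ → ℂ}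

theorem dvd_of {q q' : ℤ} (h : (q : ZMod l) = (q' : ZMod l)) : (l : ℤ) ∣ q' - q :=
  (ZMod.intCast_eq_intCast_iff_dvd_sub q q' l).1 h

theorem Good0.walk (G : Good0 s t β e) (hl : 1 ≤ l) : Walk (3 * l) (wv s t e) where
  L3 := by omega
  per k := by
    unfold wv
    have h1 : (k + ((3 * l : ℕ) : ℤ)) % 3 = k % 3 := by push_cast; omega
    have h2 : (((k + ((3 * l : ℕ) : ℤ)) / 3 : ℤ) : ZMod l) = ((k / 3 : ℤ) : ZMod l) := by
      have : (k + ((3 * l : ℕ) : ℤ)) / 3 = k / 3 + l := by push_cast; omega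
      rw [this]
      push_cast
      simp
    rw [h1, h2]
  inj k k' h := by
    obtain ⟨q, a, ha, rfl⟩ : ∃ q a : ℤ, (a = 0 ∨ a = 1 ∨ a = 2) ∧ k = 3 * q + a :=
      ⟨k / 3, k % 3, by omega, by omega⟩
    obtain ⟨q', a', ha', rfl⟩ : ∃ q a : ℤ, (a = 0 ∨ a = 1 ∨ a = 2) ∧ k' = 3 * q + a :=
      ⟨k' / 3, k' % 3, by omega, by omega⟩
    have fin : (q : ZMod l) = (q' : ZMod l) → a = a' →
        ((3 * l : ℕ) : ℤ) ∣ (3 * q' + a') - (3 * q + a) := by
      intro h1 h2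
      obtain ⟨c, hc⟩ := dvd_of h1
      refine ⟨c, ?_⟩
      push_cast
      linear_combination 3 * hc - h2
    rcases ha with rfl | rfl | rfl <;> rcases ha' with rfl | rfl | rfl
    · rw [add_zero, add_zero, wv0, wv0] at h
      exact fin (G.is (vP_inj h)) rfl
    · rw [add_zero, wv0, wv1] at h
      exact absurd h (vP_lt_vd _ _).ne
    · rw [add_zero, wv0, wv2] at h
      exact absurd h (vP_lt_vd _ _).ne
    · rw [add_zero, wv0, wv1] at h
      exact absurd h (vP_lt_vd _ _).ne'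
    · rw [wv1, wv1] at h
      exact fin (G.ia (congrArg Prod.fst (vd_inj h))) rfl
    · rw [wv1, wv2] at h
      have h1 := vd_inj h
      have h2 := G.ia (a₁ := (q : ZMod l)) (a₂ := (q' : ZMod l)) (by
        simp only; rw [h1]; rfl)
      rw [h2] at h1
      exact absurd h1.symm (rv_ne _)
    · rw [add_zero, wv0, wv2] at h
      exact absurd h (vP_lt_vd _ _).ne'
    · rw [wv1, wv2] at h
      have h1 := vd_inj h
      have h2 := G.ia (a₁ := (q : ZMod l)) (a₂ := (q' : ZMod l)) (by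
        simp only; rw [← h1]; rfl)
      rw [h2] at h1
      exact absurd h1 (rv_ne _)
    · rw [wv2, wv2] at h
      have h1 := vd_inj h
      have h2 := congrArg rv h1
      rw [rv_rv, rv_rv] at h2
      exact fin (G.ia (congrArg Prod.fst h2)) rfl

variable {ψ : (Fin (K + 2 * m) → ℝ) → ℂ}

theorem cv_at (H : Arcs ψ s t β) (hn : ∀ q, src s t (rv (e q)) = src s t (e (q + 1)))
    (hl : 1 ≤ l) (q : ℤ) {r : ℝ} (hr : r ∈ Icc (0:ℝ) 1) :
    cv ψ (3 * l) (wv s t e) ((q + r) / l) = bd β (e (q : ZMod l)) r := by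
  have hl0 : (0:ℝ) < l := by exact_mod_cast hl
  unfold cv
  have e0 : ((3 * l : ℕ) : ℝ) * ((q + r) / l) = 3 * q + 3 * r := by
    push_cast; field_simp
  rw [e0]
  obtain ⟨r0, r1⟩ := hr
  rcases le_total (3 * r) 1 with c1 | c1
  · rw [show (3:ℝ) * q + 3 * r = ((3 * q : ℤ) : ℝ) + 3 * r by push_cast; ring,
      ev_on (3 * q) (by linarith) c1, wv0, wv1, H.eo _ _ ⟨by linarith, c1⟩]
    congr 1; ring
  rcases le_total (3 * r) 2 with c2 | c2
  · rw [show (3:ℝ) * q + 3 * r = ((3 * q + 1 : ℤ) : ℝ) + (3 * r - 1) by push_cast; ring,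
      ev_on (3 * q + 1) (by linarith) (by linarith), wv1, show 3 * q + 1 + 1 = 3 * q + 2 by ring,
      wv2, H.em _ _ ⟨by linarith, by linarith⟩]
    congr 1; ring
  · rw [show (3:ℝ) * q + 3 * r = ((3 * q + 2 : ℤ) : ℝ) + (3 * r - 2) by push_cast; ring,
      ev_on (3 * q + 2) (by linarith) (by linarith), wv2, show 3 * q + 2 + 1 = 3 * q + 3 by ring,
      wv3, ← hn, ep_symm, H.eo _ _ ⟨by linarith, by linarith⟩, bd_rv]
    congr 1; ring

theorem cv_fl (H : Arcs ψ s t β) (hn : ∀ q, src s t (rv (e q)) = src s t (e (q + 1)))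
    (hl : 1 ≤ l) (x : ℝ) :
    cv ψ (3 * l) (wv s t e) x = bd β (e ((⌊l * x⌋ : ℤ) : ZMod l)) (Int.fract (l * x)) := by
  have hl0 : (0:ℝ) < l := by exact_mod_cast hl
  rw [← cv_at H hn hl ⌊l * x⌋ ⟨Int.fract_nonneg _, (Int.fract_lt_one _).le⟩]
  congr 1
  rw [Int.floor_add_fract]
  field_simp

theorem Good0.inj_range (G : Good0 s t β e) (H : Arcs ψ s t β) (hl : 1 ≤ l)
    (hi : ∀ i, InjOn (β i) (Icc 0 1)) :
    Inj (cv ψ (3 * l) (wv s t e)) ∧
      range (cv ψ (3 * l) (wv s t e)) = ⋃ q, β (e q).1 '' Icc 0 1 := by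
  have hl0 : (0:ℝ) < l := by exact_mod_cast hl
  refine ⟨fun x y hxy hyx h => ?_, ?_⟩
  · rw [cv_fl H G.nxt hl, cv_fl H G.nxt hl] at h
    by_cases hq : ((⌊l * x⌋ : ℤ) : ZMod l) = ((⌊l * y⌋ : ℤ) : ZMod l)
    · rw [hq] at h
      have h1 := bd_inj hi _ ⟨Int.fract_nonneg _, (Int.fract_lt_one _).le⟩
        ⟨Int.fract_nonneg _, (Int.fract_lt_one _).le⟩ h
      obtain ⟨c, hc⟩ := dvd_of hq
      rw [← Int.self_sub_floor, ← Int.self_sub_floor] at h1
      have h2 : (l:ℝ) * (y - x) = l * c := by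
        have : ((⌊l * y⌋ - ⌊l * x⌋ : ℤ) : ℝ) = ((l * c : ℤ) : ℝ) := by rw [hc]
        push_cast at this
        linarith
      have h3 : y - x = c := mul_left_cancel₀ hl0.ne' h2
      have h4 : (0:ℝ) < c := by rw [← h3]; linarith
      have h5 : (c:ℝ) < 1 := by rw [← h3]; linarith
      have h6 : (0:ℤ) < c := by exact_mod_cast h4
      have h7 : c < (1:ℤ) := by exact_mod_cast h5
      omega
    · exact G.disj _ _ hq _ ⟨Int.fract_nonneg _, Int.fract_lt_one _⟩ _
        ⟨Int.fract_nonneg _, Int.fract_lt_one _⟩ h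
  · ext z
    rw [mem_iUnion]
    constructor
    · rintro ⟨x, rfl⟩
      rw [cv_fl H G.nxt hl]
      refine ⟨((⌊l * x⌋ : ℤ) : ZMod l), ?_⟩
      rw [← bd_img]
      exact mem_image_of_mem _ ⟨Int.fract_nonneg _, (Int.fract_lt_one _).le⟩
    · rintro ⟨q, hz⟩
      rw [← bd_img] at hz
      obtain ⟨r, hr, rfl⟩ := hz
      obtain ⟨k, rfl⟩ := ZMod.intCast_surjective q
      exact ⟨(k + r) / l, cv_at H G.nxt hl k hr⟩

theorem Good0.loop (G : Good0 s t β e) (hψ : ContinuousOn ψ (real ⊤)) (hl : 1 ≤ l) :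
    Loop (cv ψ (3 * l) (wv s t e)) := by
  refine (G.walk hl).cv_loop hψ fun x => ?_
  exact ⟨_, _, (G.walk hl).ne1 ⌊x⌋, ep_mem _ _ (Int.fract_nonneg _) (Int.fract_lt_one _).le⟩

end Pool.Agent.H687.TG
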