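import Pool.Agent.H687.TG.Ver
import Pool.Agent.H687.TC.Fin

/-! Charges of finitely many arcs with half tangents. -/

set_option autoImplicit false
open Complex Set Topology Metric

namespace Pool.Agent.H687.TG

open Pool.Agent.H763R2 Pool.Agent.H763R2.An Pool.Agent.Y535.PEG Pool.Agent.H687.K4
open Pool.Agent.H763R2.Dm (NoSq)
open Pool.Agent.H687.TC (Xl_near3 Xl_pt cr_Xl close_gen cr_rot ArmP arm_mk NiceE Vp_zero Vp_pos Bx
  indep split NoPair Cone nonpar exrot pairC uc mkNice)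

variable {K m : ℕ}

/-- the half tangents -/
def tn (T : Dart m → ℂ) : Option (Dart m) → ℂ
  | none => 1
  | some e => T e

/-- transversality -/
def Tr (K : ℕ) (T : Option (Dart m) → ℂ) (rot : ℂ) (C δ : ℝ) : Prop :=
  ∀ (p : Option (Dart m)) (k : ℕ), k ≤ 2 * (K + 2 * m) * (K + 2 * m) → ∀ D v : ℂ,
    ‖D - T p‖ ≤ δ → v = rot * (1 + ((k : ℝ) : ℂ) * I) →
    D.re * v.im - D.im * v.re ≠ 0 ∧ ‖D‖ * ‖v‖ ≤ C * |D.re * v.im - D.im * v.re|

theorem code_e' {s t : Fin m → Fin K} {x : Fin K} {e : Dart m} (h : src s t e = x) :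
    code s t (vP m x) (vd K e) = some e := by
  subst h
  exact code_e e

theorem fin_cone {P : Fin K → ℂ} {s t : Fin m → Fin K} (β : Fin m → ℝ → ℂ)
    (hc : ∀ i, Continuous (β i)) (hi : ∀ i, InjOn (β i) (Icc 0 1)) (h0 : ∀ i, β i 0 = P (s i))
    (h1 : ∀ i, β i 1 = P (t i)) {T : Dart m → ℂ} (hT1 : ∀ e, ‖T e‖ = 1) {rot : ℂ}
    (hrot : ‖rot‖ = 1) {C δ θ θ1 : ℝ} (hT : Tr K (tn T) rot C δ) (hθ1 : 0 < θ1) (hθδ : θ1 ≤ δ)
    (hCn : (1 + 2 * ((K + 2 * m : ℕ) : ℝ) * ((K + 2 * m : ℕ) : ℝ)) *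
      (1 + 2 * ((K + 2 * m : ℕ) : ℝ) * ((K + 2 * m : ℕ) : ℝ)) ≤ C)
    (hθ : (8 * C + 18) * θ1 ≤ θ) (hθ2 : θ ≤ 1 / 100)
    (hA : ∀ e : Dart m, ∀ r ∈ Icc (0:ℝ) (1 / 3), bd β e r - P (src s t e) ∈ Cone (T e) θ1)
    (hN : ∀ e f : Dart m, T e ≠ T f → NoPair (T e) (T f) θ) :
    ∃ f : Fin m → ZMod 2, ∀ (l : ℕ) (e : ZMod (l + 1) → Dart m), Good s t β T e →
      ∑ q, f (e q).1 = 1 := by
  classical
  have hC0 : 0 ≤ C := le_trans (by positivity) hCn
  -- directions
  obtain ⟨D, hD1, hD2⟩ := nonpar (tn T) (by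
    intro p
    match p with
    | none => exact norm_one
    | some e => exact hT1 e) hθ1
  obtain ⟨C2, hC2, hC2'⟩ := pairC D hD2
  obtain ⟨C3, hC3⟩ : ∃ C3, C3 = C + C2 := ⟨_, rfl⟩
  have hC30 : 0 ≤ C3 := by rw [hC3]; positivity
  obtain ⟨ψ, hψ, Hψ⟩ := ex_psi β hc h0 h1
  -- the cycles
  let Pr : Type := {p : (l : Fin m) × (ZMod (l.val + 1) → Dart m) // Good s t β T p.2}
  have : Finite Pr := Subtype.finite
  have : Fintype Pr := Fintype.ofFinite Pr
  have Lp : ∀ p : Pr, Loop (cv ψ (3 * (p.1.1.val + 1)) (wv s t p.1.2)) := fun p =>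
    p.2.loop hψ (by omega)
  obtain ⟨ε, hε, He⟩ := exists_min (β := Pr) (P := fun p ε => ∀ q : ℝ → ℂ, Gen q → PLc q →
      (∀ x, ‖q x - cv ψ (3 * (p.1.1.val + 1)) (wv s t p.1.2) x‖ ≤ ε) →
      (1 : ZMod 2) = ∑ k ∈ Finset.Ico (0:ℤ) ((3 * (p.1.1.val + 1) : ℕ) : ℤ),
      (((Nw q (Icc (((k:ℝ) - 3 / 4) / ((3 * (p.1.1.val + 1) : ℕ) : ℝ))
        (((k:ℝ) + 3 / 4) / ((3 * (p.1.1.val + 1) : ℕ) : ℝ))) : ℕ) : ZMod 2) +
       ((Nw q (Icc (((k:ℝ) + 1 / 4) / ((3 * (p.1.1.val + 1) : ℕ) : ℝ))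
        (((k:ℝ) + 3 / 4) / ((3 * (p.1.1.val + 1) : ℕ) : ℝ))) : ℕ) : ZMod 2)))
    (fun p x y h hyx _ q h1 h2 h3 => h q h1 h2 fun t => (h3 t).trans hyx)
    (fun p => eps_one (Lp p) (p.2.inj_range Hψ (by omega) hi).1 (by
      rw [(p.2.inj_range Hψ (by omega) hi).2]; exact p.2.nosq) (by omega))
  obtain ⟨ε', hε'⟩ : ∃ ε' : ℝ, ε' = ε / (2 * (2 * C3 + 1)) := ⟨_, rfl⟩
  have hε'0 : 0 < ε' := by rw [hε']; positivity
  -- exit times
  choose ρ hρ τ0 hτ0 a1 a2 a3 using fun e : Dart m =>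
    TC.exit (bd_cont hc e) (bd_inj hi e) (show 0 < ε' / 4 by positivity)
  have NA := fun e : Dart m => mkNice (Hψ.eo e) (T := T e) (θ1 := θ1) (hρ e).1 (hτ0 e) (a1 e) (a2 e)
    (fun r hr => by rw [bd_zero h0 h1]; exact hA e r hr)
  let τf : Option (Dart m) → ℝ := fun p => match p with
    | none => 0
    | some e => 3 * τ0 e
  obtain ⟨τ, hτ⟩ : ∃ τ : Fin (K + 2 * m) → Fin (K + 2 * m) → ℝ,
    τ = fun x y => τf (code s t x y) := ⟨_, rfl⟩
  obtain ⟨D', hD'⟩ : ∃ D' : Fin (K + 2 * m) → Fin (K + 2 * m) → ℂ,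
    D' = fun x y => D (code s t x y) := ⟨_, rfl⟩
  have τe : ∀ (x : Fin K) (e : Dart m), src s t e = x → τ (vP m x) (vd K e) = 3 * τ0 e :=
    fun x e h => by rw [hτ]; simp only; rw [code_e' h]
  have De : ∀ (x : Fin K) (e : Dart m), src s t e = x → D' (vP m x) (vd K e) = D (some e) :=
    fun x e h => by rw [hD']; simp only; rw [code_e' h]
  have Hτ : ∀ x y, ∀ r ∈ Icc 0 (τ x y), ‖ψ (ep x y r) - ψ (Pi.single x 1)‖ ≤ ε' / 4 := by
    intro x y r hr
    rcases code_cases (s := s) (t := t) x y with h | ⟨e, rfl, rfl⟩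
    · rw [hτ] at hr
      simp only at hr
      rw [h] at hr
      have : r = 0 := le_antisymm hr.2 hr.1
      rw [this]
      have : (ep x y 0) = Pi.single x 1 := by unfold ep; simp
      rw [this, sub_self, norm_zero]
      positivity
    · rw [τe _ _ rfl] at hr
      exact (NA e).2 _ (a3 e) r hr
  -- minimal radii
  obtain ⟨r1, hr1, hr1'⟩ := exists_min (β := Dart m) (P := fun i x => x ≤ ρ i)
    (fun i x y h h' _ => h'.trans h) fun i => ⟨ρ i, (hρ i).1, le_rfl⟩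
  obtain ⟨σ, hσ, hσ'⟩ := exists_min (β := Dart m) (P := fun i x => x ≤ 3 * τ0 i)
    (fun i x y h h' _ => h'.trans h) fun i => ⟨3 * τ0 i, by linarith [(hτ0 i).1], le_rfl⟩
  obtain ⟨ε1, hε1⟩ : ∃ ε1 : ℝ, ε1 = θ1 * r1 / (2 * (C + 1)) := ⟨_, rfl⟩
  have hε10 : 0 < ε1 := by rw [hε1]; positivity
  have hε1e : (C + 1) * ε1 = θ1 * r1 / 2 := by rw [hε1]; field_simp
  -- number of points
  choose N1 hN1 hN1' using fun e : Dart m => uc (bd_cont hc e) hε10
  choose N2 hN2 hN2' using fun p : Pr => (Lp p).fine (show 0 < ε' / 2 by positivity)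
  obtain ⟨N3, hN3⟩ := exists_nat_gt (1 / σ)
  obtain ⟨M, hMd⟩ : ∃ M, M = 9 + N3 + ∑ i, N1 i + ∑ p, N2 p := ⟨_, rfl⟩
  have hM9 : 9 ≤ M := by omega
  have hM1 : ∀ i, N1 i ≤ M := fun i => by
    have := Finset.single_le_sum (f := N1) (fun i _ => Nat.zero_le _) (Finset.mem_univ i)
    omega
  have hM2 : ∀ p, N2 p ≤ M := fun p => by
    have := Finset.single_le_sum (f := N2) (fun i _ => Nat.zero_le _) (Finset.mem_univ p)
    omega
  have hM9' : (9:ℝ) ≤ M := by exact_mod_cast hM9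
  have hM3 : 1 / ((M:ℝ) - 1) ≤ σ := by
    have h3 : (N3:ℝ) + 9 ≤ M := by
      have : N3 + 9 ≤ M := by omega
      exact_mod_cast this
    rw [div_le_iff₀ (by linarith)]
    rw [div_lt_iff₀ hσ] at hN3
    nlinarith
  have : NeZero M := ⟨by omega⟩
  obtain ⟨ε'', hε''⟩ : ∃ ε'' : ℝ, ε'' = min (θ1 * r1 / 2) (ε / 2) := ⟨_, rfl⟩
  have hε''0 : 0 < ε'' := by rw [hε'']; exact lt_min (by positivity) (by positivity)
  have e1' : ε'' ≤ θ1 * r1 / 2 := by rw [hε'']; exact min_le_left _ _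
  have e2' : ε'' ≤ ε / 2 := by rw [hε'']; exact min_le_right _ _
  have hDR : ∀ (x y : Fin (K + 2 * m)) (z : Ix (K + 2 * m) M),
      An.cr (D' x y) (rot * d0 z) ≠ 0 ∧
      ‖D' x y‖ * ‖rot * d0 z‖ ≤ C * |An.cr (D' x y) (rot * d0 z)| := by
    intro x y z
    have := hT (code s t x y) (sl z) (sl_le z) (D' x y) (rot * d0 z) (by
      rw [hD']; exact (hD1 _).trans hθδ) rfl
    exact this
  have hdd : ∀ z : Ix (K + 2 * m) M, dd K rot D' z ≠ 0 := by
    intro z
    unfold dd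
    split_ifs with h
    · intro h'
      have := (hDR z.1 z.2.1 z).1
      rw [h'] at this
      apply this
      unfold An.cr; simp
    · intro h'
      have := (hDR z.1 z.2.1 z).1
      rw [h'] at this
      apply this
      unfold An.cr; simp
  obtain ⟨d, κ, G, hcl⟩ := exGf (ι := Ix (K + 2 * m) M) (dd K rot D') hdd
    (fun z => An.cr (dd K rot D' z) (pb K ψ τ z)) hε''0
  have third : ∀ s ∈ Icc (0:ℝ) 1, s / 3 ∈ Icc (0:ℝ) 1 := fun s hs =>
    ⟨by linarith [hs.1], by linarith [hs.2]⟩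
  have close3 : ∀ s t : ℝ, |s - t| ≤ 1 / ((M:ℝ) - 1) → |s / 3 - t / 3| ≤ 1 / M := by
    intro s t h
    rw [← sub_div, abs_div, abs_of_pos (show (0:ℝ) < 3 by norm_num)]
    have : 1 / ((M:ℝ) - 1) ≤ 3 * (1 / M) := by
      rw [mul_one_div, div_le_div_iff₀ (by linarith) (by linarith)]
      linarith
    rw [div_le_iff₀ (by norm_num)]
    linarith
  have V := fun x : Fin K => vertex (ι := {e : Dart m // src s t e = x}) (K := K) (ψ := ψ) (d := d)
    (κ := κ) (by omega) (D := D') (τ := τ)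
    (ρ := fun e => ρ e.1) (T := fun e => T e.1) (x := vP m x) (y := fun e => vd K e.1) (ε1 := ε1)
    hrot x.isLt
    (fun e => vP_lt_vd x e.1) (fun e f h => Subtype.ext (vd_inj h)) hCn (fun e => hT1 e.1)
    (fun e => by rw [De x e.1 e.2]; exact hD1 (some e.1)) hθ1.le G hcl
    (fun e f hef => by
      rw [De x e.1 e.2, De x f.1 f.2]
      exact hD2 _ _ (fun h => hef (Subtype.ext (Option.some_injective _ h).symm)))
    (fun e => hDR _ _ _) (fun e => by
      rw [τe x e.1 e.2]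
      have := (NA e.1).1
      rw [e.2] at this
      exact this)
    (fun e => by rw [τe x e.1 e.2]; exact hM3.trans (hσ' e.1))
    (fun e a ha b hb hab => by
      have h3 := Hψ.eo e.1
      rw [e.2] at h3
      rw [h3 a ha, h3 b hb]
      exact (hN1' e.1 M (hM1 e.1) _ (third a ha) _ (third b hb) (close3 a b hab)).le)
    (fun e => by rw [hε1e]; have := hr1' e.1; gcongr)
    (fun e => e1'.trans (by have := hr1' e.1; gcongr)) hθ hθ2
  choose g hg using fun x => (V x).2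
  obtain ⟨Gd, hGd⟩ : ∃ Gd : Dart m → ZMod 2, Gd = fun e => g (src s t e) ⟨e, rfl⟩ := ⟨_, rfl⟩
  obtain ⟨Ev, hEv⟩ : ∃ Ev : Dart m → ZMod 2, Ev = fun e =>
    Cn d κ (vP m (src s t e)) (vd K e) (vd K (rv e)) + En d κ (vP m (src s t e)) (vd K e) := ⟨_, rfl⟩
  refine ⟨fun i => Gd (i, true) + Ev (i, true) + (Gd (i, false) + Ev (i, false)) +
    En d κ (vd K ((i, true) : Dart m)) (vd K ((i, false) : Dart m)), fun l e He' => ?_⟩
  have hlm : l < m := by
    have h3 := Fintype.card_le_of_injective _ He'.ia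
    rw [ZMod.card, Fintype.card_fin] at h3
    omega
  have W := He'.walk (by omega)
  obtain ⟨p, hp⟩ : ∃ p : Pr, p = ⟨⟨⟨l, hlm⟩, e⟩, He'⟩ := ⟨_, rfl⟩
  have hclose : ∀ x, ‖qv M (3 * (l + 1)) (wv s t e) d κ x - cv ψ (3 * (l + 1)) (wv s t e) x‖ ≤ ε := by
    have hC3n : (1 + 2 * ((K + 2 * m : ℕ) : ℝ) * ((K + 2 * m : ℕ) : ℝ)) *
      (1 + 2 * ((K + 2 * m : ℕ) : ℝ) * ((K + 2 * m : ℕ) : ℝ)) ≤ C3 := by
      rw [hC3]; linarith
    have sv := fun N => cr_sv W (K := K) (M := M) (by omega) (rot := rot) (D := D') hrot (C := C3)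
      hC3n
      (fun x y z _ => ⟨(hDR _ _ _).1, (hDR _ _ _).2.trans (by
        rw [hC3]
        exact mul_le_mul_of_nonneg_right (by linarith) (abs_nonneg _))⟩)
      (fun k hk => by
        obtain ⟨q, -, n1, n2, n3, n4⟩ := wv_nb He'.nxt k hk
        rw [n1, n2, n3, De _ _ n4, De _ _ rfl]
        have hne : (some (rv (e ((q : ZMod (l + 1)) - 1))) : Option (Dart m)) ≠
            some (e (q : ZMod (l + 1))) := by
          intro h
          have := He'.tan (q : ZMod (l + 1))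
          rw [Option.some_injective _ h] at this
          exact this rfl
        exact ⟨hD2 _ _ hne, (hC2' _ _ hne).trans (by
            rw [hC3]
            exact mul_le_mul_of_nonneg_right (by linarith) (abs_nonneg _))⟩)
      (fun k hk => by
        obtain ⟨q, -, n1, n2, n3, n4⟩ := wv_nb He'.nxt k hk
        rw [n2, n3, vd_val, vd_val]
        omega) N
    intro x
    refine close_gen W (by omega) (d1 := dd K rot D') (P1 := pb K ψ τ) (C := C3) (ε' := ε')
      (ε'' := ε'') hC30 (fun N => (sv N).1) (fun N => (sv N).2) hcl (fun N x hx => ?_) ?_ x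
    · have := pb_near (K := K) (ψ := ψ) (τ := τ) (ρ0 := ε' / 4) (ε' := ε' / 2) W (M := M) (by omega)
        (by positivity) Hτ (fun a b hab => by
          have := hN2' p M (hM2 p) a b (hab.trans ?_)
          · rw [hp] at this
            exact this
          · push_cast
            have l0 : (0:ℝ) ≤ l := by positivity
            rw [div_le_div_iff₀ (by positivity) (by positivity)]
            nlinarith) N x hx
      linarith
    · have : (2 * C3 + 1) * ε' = ε / 2 := by rw [hε']; field_simp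
      linarith
  have hgen := W.gen (M := M) (by omega) G
  have h1s := He p _ hgen.1 hgen.2 (by rw [hp]; exact hclose)
  have hs : (1 : ZMod 2) = ∑ k ∈ Finset.Ico (0:ℤ) ((3 * (l + 1) : ℕ) : ℤ),
      (Cn d κ (wv s t e (k - 1)) (wv s t e k) (wv s t e (k + 1)) +
       En d κ (wv s t e k) (wv s t e (k + 1))) := by
    rw [h1s]
    subst hp
    refine Finset.sum_congr rfl fun k _ => ?_
    rw [(W.win_c (by omega) d κ k).1, (W.win_e (by omega) d κ k).1]
    rfl
  rw [sum3] at hs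
  have blk : ∀ q : ℤ,
      ((Cn d κ (wv s t e (3 * q - 1)) (wv s t e (3 * q)) (wv s t e (3 * q + 1)) +
       En d κ (wv s t e (3 * q)) (wv s t e (3 * q + 1))) +
      (Cn d κ (wv s t e (3 * q + 1 - 1)) (wv s t e (3 * q + 1)) (wv s t e (3 * q + 1 + 1)) +
       En d κ (wv s t e (3 * q + 1)) (wv s t e (3 * q + 1 + 1))) +
      (Cn d κ (wv s t e (3 * q + 2 - 1)) (wv s t e (3 * q + 2)) (wv s t e (3 * q + 2 + 1)) +
       En d κ (wv s t e (3 * q + 2)) (wv s t e (3 * q + 2 + 1)))) =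
      Gd (rv (e ((q : ZMod (l + 1)) - 1))) + (Gd (e (q : ZMod (l + 1))) + Ev (e (q : ZMod (l + 1))) +
        Ev (rv (e (q : ZMod (l + 1)))) + En d κ (vd K ((e (q : ZMod (l + 1))).1, true))
          (vd K ((e (q : ZMod (l + 1))).1, false))) := by
    intro q
    obtain ⟨a, ha⟩ : ∃ a, a = e (q : ZMod (l + 1)) := ⟨_, rfl⟩
    obtain ⟨b, hb⟩ : ∃ b, b = rv (e ((q : ZMod (l + 1)) - 1)) := ⟨_, rfl⟩
    have hba : src s t b = src s t a := by
      have := He'.nxt ((q : ZMod (l + 1)) - 1)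
      rw [sub_add_cancel] at this
      rw [ha, hb, this]
    have hnx : src s t (e ((q : ZMod (l + 1)) + 1)) = src s t (rv a) := by
      rw [ha, He'.nxt]
    have n0 : wv s t e (3 * q - 1) = vd K b := by
      rw [show 3 * q - 1 = 3 * (q - 1) + 2 by ring, wv2, hb]
      push_cast
      rfl
    have n1 : wv s t e (3 * q) = vP m (src s t a) := by rw [wv0, ha]
    have n2 : wv s t e (3 * q + 1) = vd K a := by rw [wv1, ha]
    have n3 : wv s t e (3 * q + 2) = vd K (rv a) := by rw [wv2, ha]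
    have n4 : wv s t e (3 * q + 3) = vP m (src s t (rv a)) := by rw [wv3, hnx]
    have hab : a ≠ b := by
      intro h
      have := He'.tan (q : ZMod (l + 1))
      rw [← hb, ← ha, h] at this
      exact this rfl
    have c0 := split W (M := M) (by omega) G (3 * q) (hN a b (by
        have := He'.tan (q : ZMod (l + 1))
        rw [← hb, ← ha] at this
        exact this.symm))
      (by
        rw [n0, n1, n2]
        exact (V (src s t a)).1 ⟨a, rfl⟩ ⟨b, hba⟩ (fun h => hab (congrArg Subtype.val h)))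
      (by
        rw [n0, n1, n2]
        exact (V (src s t a)).1 ⟨b, hba⟩ ⟨a, rfl⟩ (fun h => hab (congrArg Subtype.val h).symm))
    have s0 : Bx d κ (vP m (src s t a)) (vd K a) (vd K b) = Gd a := by
      rw [hGd]
      exact hg (src s t a) ⟨a, rfl⟩ ⟨b, hba⟩ (fun h => hab (congrArg Subtype.val h))
    have s1 : Bx d κ (vP m (src s t a)) (vd K b) (vd K a) = Gd b := by
      rw [← hba, hGd]
      exact hg (src s t b) ⟨b, rfl⟩ ⟨a, hba.symm⟩ (fun h => hab (congrArg Subtype.val h).symm)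
    have c2 := W.sym_c (M := M) (by omega) G (3 * q + 2)
    have d1 := W.sym_e (M := M) (by omega) G (3 * q + 1)
    have d2 := W.sym_e (M := M) (by omega) G (3 * q + 2)
    rw [show 3 * q + 1 - 1 = 3 * q by ring]
    rw [show 3 * q + 2 - 1 = 3 * q + 1 by ring, show 3 * q + 2 + 1 = 3 * q + 3 by ring] at c2 ⊢
    rw [show 3 * q + 2 + 1 = 3 * q + 3 by ring] at d2
    rw [show 3 * q + 1 + 1 = 3 * q + 2 by ring] at d1 ⊢
    rw [c0, c2, d2, n0, n1, n2, n3, n4, s0, s1, hEv, ← ha, ← hb]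
    rw [n2, n3] at d1
    simp only
    rw [rv_rv]
    have hm : En d κ (vd K a) (vd K (rv a)) =
        En d κ (vd K ((a.1, true) : Dart m)) (vd K ((a.1, false) : Dart m)) := by
      obtain ⟨i, b'⟩ := a
      cases b'
      · rw [d1]; rfl
      · rfl
    rw [hm]
    ring
  replace hs := hs.trans (Finset.sum_congr rfl fun (q : ℕ) _ => blk (q : ℤ))
  have z := sum_zmod (l + 1) (fun q : ZMod (l + 1) => Gd (rv (e (q - 1))) + (Gd (e q) + Ev (e q) +
        Ev (rv (e q)) + En d κ (vd K ((e q).1, true)) (vd K ((e q).1, false))))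
  rw [z, Finset.sum_add_distrib, sum_shift (l + 1) (fun q => Gd (rv (e q))),
    ← Finset.sum_add_distrib] at hs
  rw [hs]
  refine Finset.sum_congr rfl fun q _ => ?_
  obtain ⟨i, b⟩ := e q
  cases b
  · show _ = Gd (i, true) + (Gd (i, false) + Ev (i, false) + Ev (i, true) + _)
    ring
  · show _ = Gd (i, false) + (Gd (i, true) + Ev (i, true) + Ev (i, false) + _)
    ring

end Pool.Agent.H687.TG
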