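import Pool.Agent.H687.TG.Glob

/-! Theta curves and complete graphs with four vertices drawn with arcs with half tangents. -/

set_option autoImplicit false
open Complex Set Topology Metric

namespace Pool.Agent.H687.TG

open Pool.Agent.H763R2.Dm (NoSq)
open Pool.Agent.H687.TC (HalfTan)

theorem ArcHT.rev {a b u w : ℂ} {A : Set ℂ} (h : ArcHT a b u w A) : ArcHT b a w u A := by
  obtain ⟨α, h1, h2⟩ := h
  exact ⟨_, HalfTan.rev h1, by rw [rev_img, h2]⟩

/-- two arcs with common ends -/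
theorem chain2 {a b u u' w w' : ℂ} {A B : Set ℂ} (h1 : ArcHT a b u w A) (h2 : ArcHT a b u' w' B)
    (hu : u ≠ u') (hw : w ≠ w') (hi : A ∩ B ⊆ {a, b}) :
    Chain (l := 1) (![A, B] : Fin 2 → Set ℂ) (![a, b] : Fin 2 → ℂ) (![u, w'] : Fin 2 → ℂ)
      (![w, u'] : Fin 2 → ℂ) where
  arc q := by
    change Fin 2 at q
    fin_cases q
    · exact h1
    · exact h2.rev
  tan q := by
    change Fin 2 at q
    fin_cases q
    · exact hu.symm
    · exact hw
  disj q q' hq := by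
    change Fin 2 at q q'
    have d1 : Disjoint (A \ {b}) (B \ {a}) := by
      rw [disjoint_left]
      rintro z ⟨z1, z2⟩ ⟨z3, z4⟩
      rcases hi ⟨z1, z3⟩ with h | h
      · exact z4 h
      · exact z2 h
    fin_cases q <;> fin_cases q'
    · exact absurd rfl hq
    · exact d1
    · exact d1.symm
    · exact absurd rfl hq

/-- `E` is a drawing of the complete graph with `n` vertices -/
structure Drawn {n : ℕ} (a : Fin n → ℂ) (T : Fin n → Fin n → ℂ) (E : Sym2 (Fin n) → Set ℂ) :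
    Prop where
  arc : ∀ x y, x ≠ y → ArcHT (a x) (a y) (T x y) (T y x) (E s(x, y))
  tan : ∀ x y z, x ≠ y → x ≠ z → y ≠ z → T x y ≠ T x z
  inter : ∀ e f : Sym2 (Fin n), ¬ e.IsDiag → ¬ f.IsDiag → e ≠ f → ∀ z ∈ E e ∩ E f,
    ∃ x, x ∈ e ∧ x ∈ f ∧ z = a x

theorem Drawn.chain {n l : ℕ} {a : Fin n → ℂ} {T : Fin n → Fin n → ℂ} {E : Sym2 (Fin n) → Set ℂ}
    (D : Drawn a T E) (hl : 2 ≤ l) {v : ZMod (l + 1) → Fin n} (hv : Function.Injective v) :
    Chain (fun q => E s(v q, v (q + 1))) (fun q => a (v q)) (fun q => T (v q) (v (q + 1)))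
      (fun q => T (v (q + 1)) (v q)) := by
  have two : (2 : ZMod (l + 1)) ≠ 0 := by
    intro h
    have h2 : ((2 : ℕ) : ZMod (l + 1)) = 0 := by exact_mod_cast h
    rw [ZMod.natCast_eq_zero_iff] at h2
    have := Nat.le_of_dvd (by norm_num) h2
    omega
  have one : (1 : ZMod (l + 1)) ≠ 0 := by
    intro h
    have h2 : ((1 : ℕ) : ZMod (l + 1)) = 0 := by exact_mod_cast h
    rw [ZMod.natCast_eq_zero_iff] at h2
    have := Nat.le_of_dvd (by norm_num) h2
    omega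
  have ne1 : ∀ q, v q ≠ v (q + 1) := fun q h => by
    have := hv h
    exact one (by linear_combination -this)
  refine ⟨fun q => D.arc _ _ (ne1 q), fun q => ?_, fun q q' hq => ?_⟩
  · rw [sub_add_cancel]
    refine D.tan _ _ _ ?_ (ne1 q) ?_
    · have := ne1 (q - 1)
      rw [sub_add_cancel] at this
      exact this.symm
    · intro h
      have := hv h
      exact two (by linear_combination -this)
  · rw [disjoint_left]
    rintro z ⟨z1, z2⟩ ⟨z3, z4⟩
    obtain ⟨x, x1, x2, rfl⟩ := D.inter _ _ (by rw [Sym2.mk_isDiag_iff]; exact ne1 q)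
      (by rw [Sym2.mk_isDiag_iff]; exact ne1 q') (by
        intro h
        rw [Sym2.eq_iff] at h
        rcases h with ⟨h1, -⟩ | ⟨h1, h2⟩
        · exact hq (hv h1)
        · have e1 := hv h1
          have e2 := hv h2
          exact two (by linear_combination e2 - e1)) z ⟨z1, z3⟩
    rw [Sym2.mem_iff] at x1 x2
    rcases x1 with rfl | rfl
    · rcases x2 with h | h
      · exact hq (hv h)
      · exact z4 (by rw [h]; rfl)
    · exact z2 rfl

/-- `C` is the set of the edges of a cycle -/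
def Ring {n : ℕ} (C : Finset (Sym2 (Fin n))) : Prop :=
  ∃ (L : ℕ) (v : ZMod L → Fin n), 3 ≤ L ∧ Function.Injective v ∧
    ∀ e, e ∈ C ↔ ∃ i, e = s(v i, v (i + 1))

theorem key4 {n l : ℕ} {a : Fin n → ℂ} {T : Fin n → Fin n → ℂ} {E : Sym2 (Fin n) → Set ℂ}
    (D : Drawn a T E) {χ : Set ℂ → ZMod 2} (hχ : ∀ (l : ℕ) (A : ZMod (l + 1) → Set ℂ)
      (p u w : ZMod (l + 1) → ℂ), Chain A p u w → NoSq (⋃ q, A q) → ∑ q, χ (A q) = 1)
    (hl : 2 ≤ l) {v : ZMod (l + 1) → Fin n} (hv : Function.Injective v)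
    (h0 : ∑ q, χ (E s(v q, v (q + 1))) = 0) : ∀ C : Finset (Sym2 (Fin n)),
      (∀ e, e ∈ C ↔ ∃ i, e = s(v i, v (i + 1))) → Ring C ∧ ¬ NoSq (⋃ e ∈ C, E e) := by
  intro C hC
  refine ⟨⟨l + 1, v, by omega, hv, hC⟩, fun hno => ?_⟩
  have h1 : (⋃ e ∈ C, E e) = ⋃ q, E s(v q, v (q + 1)) := by
    ext z
    simp only [mem_iUnion]
    constructor
    · rintro ⟨e, he, hz⟩
      obtain ⟨i, rfl⟩ := (hC e).1 he
      exact ⟨i, hz⟩
    · rintro ⟨i, hz⟩
      exact ⟨_, (hC _).2 ⟨i, rfl⟩, hz⟩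
  rw [h1] at hno
  have := hχ l _ _ _ _ (D.chain hl hv) hno
  rw [h0] at this
  exact absurd this (by decide)

/-- the triangles -/
def v3 : Fin 4 → Fin 3 → Fin 4 := ![![0, 1, 2], ![0, 1, 3], ![0, 2, 3], ![1, 2, 3]]

/-- the quadrilaterals -/
def v4 : Fin 3 → Fin 4 → Fin 4 := ![![0, 1, 2, 3], ![0, 1, 3, 2], ![0, 2, 1, 3]]

theorem v3_inj (i : Fin 4) : Function.Injective (v3 i) := by revert i; decide

theorem v4_inj (i : Fin 3) : Function.Injective (v4 i) := by revert i; decide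

/-- the sets of edges -/
def c7 : Fin 4 ⊕ Fin 3 → Finset (Sym2 (Fin 4))
  | Sum.inl i => Finset.univ.image fun q : Fin 3 => s(v3 i q, v3 i (q + 1))
  | Sum.inr i => Finset.univ.image fun q : Fin 4 => s(v4 i q, v4 i (q + 1))

theorem c7_inj : Function.Injective c7 := by decide

theorem c7_card (i : Fin 3) : (c7 (Sum.inr i)).card = 4 := by revert i; decide

/-- sums over the cycles -/
def s7 (x01 x02 x03 x12 x13 x23 : ZMod 2) : Fin 4 ⊕ Fin 3 → ZMod 2
  | Sum.inl i => ![x01 + x12 + x02, x01 + x13 + x03, x02 + x23 + x03, x12 + x23 + x13] i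
  | Sum.inr i => ![x01 + x12 + x23 + x03, x01 + x13 + x23 + x02, x02 + x12 + x13 + x03] i

theorem comb : ∀ x01 x02 x03 x12 x13 x23 : ZMod 2,
    3 ≤ (Finset.univ.filter fun c => s7 x01 x02 x03 x12 x13 x23 c = 0).card ∧
    ∃ i, s7 x01 x02 x03 x12 x13 x23 (Sum.inr i) = 0 := by decide

theorem four {a : Fin 4 → ℂ} {T : Fin 4 → Fin 4 → ℂ} {E : Sym2 (Fin 4) → Set ℂ}
    (D : Drawn a T E) :
    3 ≤ {C : Finset (Sym2 (Fin 4)) | Ring C ∧ ¬ NoSq (⋃ e ∈ C, E e)}.ncard ∧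
      ∃ C : Finset (Sym2 (Fin 4)), C.card = 4 ∧ Ring C ∧ ¬ NoSq (⋃ e ∈ C, E e) := by
  obtain ⟨χ, hχ⟩ := charge
  obtain ⟨k1, i, k2⟩ := comb (χ (E s(0, 1))) (χ (E s(0, 2))) (χ (E s(0, 3))) (χ (E s(1, 2)))
    (χ (E s(1, 3))) (χ (E s(2, 3)))
  have key : ∀ c, s7 (χ (E s(0, 1))) (χ (E s(0, 2))) (χ (E s(0, 3))) (χ (E s(1, 2)))
      (χ (E s(1, 3))) (χ (E s(2, 3))) c = 0 → Ring (c7 c) ∧ ¬ NoSq (⋃ e ∈ c7 c, E e) := by
    intro c hc
    rcases c with i | i
    · refine key4 (l := 2) D hχ le_rfl (v := (v3 i : Fin 3 → Fin 4)) ?_ ?_ _ ?_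
      · exact v3_inj i
      · rw [← hc]
        change ∑ q : Fin 3, _ = _
        rw [Fin.sum_univ_three]
        fin_cases i
        · show χ (E s(0, 1)) + χ (E s(1, 2)) + χ (E s(2, 0)) = _
          rw [Sym2.eq_swap (a := 2)]; rfl
        · show χ (E s(0, 1)) + χ (E s(1, 3)) + χ (E s(3, 0)) = _
          rw [Sym2.eq_swap (a := 3)]; rfl
        · show χ (E s(0, 2)) + χ (E s(2, 3)) + χ (E s(3, 0)) = _
          rw [Sym2.eq_swap (a := 3)]; rfl
        · show χ (E s(1, 2)) + χ (E s(2, 3)) + χ (E s(3, 1)) = _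
          rw [Sym2.eq_swap (a := 3)]; rfl
      · intro e
        unfold c7
        simp only [Finset.mem_image, Finset.mem_univ, true_and]
        exact ⟨fun ⟨q, hq⟩ => ⟨q, hq.symm⟩, fun ⟨q, hq⟩ => ⟨q, hq.symm⟩⟩
    · refine key4 (l := 3) D hχ (by norm_num) (v := (v4 i : Fin 4 → Fin 4)) ?_ ?_ _ ?_
      · exact v4_inj i
      · rw [← hc]
        change ∑ q : Fin 4, _ = _
        rw [Fin.sum_univ_four]
        fin_cases i
        · show χ (E s(0, 1)) + χ (E s(1, 2)) + χ (E s(2, 3)) + χ (E s(3, 0)) = _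
          rw [Sym2.eq_swap (a := 3)]; rfl
        · show χ (E s(0, 1)) + χ (E s(1, 3)) + χ (E s(3, 2)) + χ (E s(2, 0)) = _
          rw [Sym2.eq_swap (a := 3), Sym2.eq_swap (a := 2) (b := 0)]; rfl
        · show χ (E s(0, 2)) + χ (E s(2, 1)) + χ (E s(1, 3)) + χ (E s(3, 0)) = _
          rw [Sym2.eq_swap (a := 3), Sym2.eq_swap (a := 2)]; rfl
      · intro e
        unfold c7
        simp only [Finset.mem_image, Finset.mem_univ, true_and]
        exact ⟨fun ⟨q, hq⟩ => ⟨q, hq.symm⟩, fun ⟨q, hq⟩ => ⟨q, hq.symm⟩⟩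
  refine ⟨?_, _, c7_card i, key _ k2⟩
  refine k1.trans ?_
  rw [← Finset.card_image_of_injective _ c7_inj, ← Set.ncard_coe_finset]
  refine Set.ncard_le_ncard ?_ (Set.toFinite _)
  intro C hC
  rw [Finset.mem_coe, Finset.mem_image] at hC
  obtain ⟨c, hc, rfl⟩ := hC
  rw [Finset.mem_filter] at hc
  exact key c hc.2

end Pool.Agent.H687.TG
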