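import Pool.Agent.H687.TC.Glob

/-! Two parametrisations of an arc. -/

set_option autoImplicit false
open Complex Set Topology Metric Filter

namespace Pool.Agent.H687.TG

open Pool.Agent.H687.TC (HalfTan)

theorem HalfTan.rev {a b u w : ℂ} {α : ℝ → ℂ} (H : HalfTan a b u w α) :
    HalfTan b a w u (fun t => α (1 - t)) where
  cont := H.cont.comp (by fun_prop) fun t ht => ⟨by linarith [ht.2], by linarith [ht.1]⟩
  inj s hs t ht h := by
    have := H.inj (show 1 - s ∈ Icc (0:ℝ) 1 from ⟨by linarith [hs.2], by linarith [hs.1]⟩)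
      (show 1 - t ∈ Icc (0:ℝ) 1 from ⟨by linarith [ht.2], by linarith [ht.1]⟩) h
    linarith
  zero := by rw [sub_zero]; exact H.one
  one := by rw [sub_self]; exact H.zero
  tan0 := by
    have h : Tendsto (fun t : ℝ => 1 - t) (𝓝[>] 0) (𝓝[<] 1) := by
      refine tendsto_nhdsWithin_iff.2 ⟨?_, ?_⟩
      · have : Tendsto (fun t : ℝ => 1 - t) (𝓝 0) (𝓝 (1 - 0)) := (by fun_prop :
          Continuous fun t : ℝ => 1 - t).tendsto 0
        rw [sub_zero] at this
        exact this.mono_left nhdsWithin_le_nhds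
      · filter_upwards [self_mem_nhdsWithin] with t ht
        have : (0:ℝ) < t := ht
        show 1 - t < 1
        linarith
    exact H.tan1.comp h
  tan1 := by
    have h : Tendsto (fun t : ℝ => 1 - t) (𝓝[<] 1) (𝓝[>] 0) := by
      refine tendsto_nhdsWithin_iff.2 ⟨?_, ?_⟩
      · have : Tendsto (fun t : ℝ => 1 - t) (𝓝 1) (𝓝 (1 - 1)) := (by fun_prop :
          Continuous fun t : ℝ => 1 - t).tendsto 1
        rw [sub_self] at this
        exact this.mono_left nhdsWithin_le_nhds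
      · filter_upwards [self_mem_nhdsWithin] with t ht
        have : t < (1:ℝ) := ht
        show 0 < 1 - t
        linarith
    exact H.tan0.comp h

theorem rev_img (α : ℝ → ℂ) : (fun t => α (1 - t)) '' Icc 0 1 = α '' Icc 0 1 := by
  rw [show (fun r => α (1 - r)) = α ∘ fun r => 1 - r from rfl, image_comp]
  congr 1
  simp

/-- change of parameter -/
theorem chg {α β : ℝ → ℂ} (hα : ContinuousOn α (Icc 0 1)) (iα : InjOn α (Icc 0 1))
    (hβ : ContinuousOn β (Icc 0 1)) (iβ : InjOn β (Icc 0 1)) (h : β '' Icc 0 1 = α '' Icc 0 1) :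
    ∃ g : ℝ → ℝ, ContinuousOn g (Icc 0 1) ∧ (StrictMonoOn g (Icc 0 1) ∨ StrictAntiOn g (Icc 0 1)) ∧
      g '' Icc 0 1 = Icc 0 1 ∧ ∀ t ∈ Icc (0:ℝ) 1, α (g t) = β t := by
  have hex : ∀ t : ℝ, ∃ s, t ∈ Icc (0:ℝ) 1 → s ∈ Icc (0:ℝ) 1 ∧ α s = β t := by
    intro t
    by_cases ht : t ∈ Icc (0:ℝ) 1
    · have : β t ∈ α '' Icc 0 1 := h ▸ mem_image_of_mem β ht
      obtain ⟨s, hs, hst⟩ := this
      exact ⟨s, fun _ => ⟨hs, hst⟩⟩
    · exact ⟨0, fun h => absurd h ht⟩
  choose g hg using hex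
  have gc : ContinuousOn g (Icc 0 1) := by
    rw [continuousOn_iff_isClosed]
    intro F hF
    obtain ⟨E, hE⟩ : ∃ E, E = α '' (F ∩ Icc 0 1) := ⟨_, rfl⟩
    have hEc : IsClosed E := by
      rw [hE]
      refine IsCompact.isClosed (IsCompact.image_of_continuousOn ?_ (hα.mono inter_subset_right))
      exact isCompact_Icc.inter_left hF
    obtain ⟨U, hU, hU2⟩ := (continuousOn_iff_isClosed.1 hβ) E hEc
    refine ⟨U, hU, ?_⟩
    rw [← hU2]
    ext t
    constructor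
    · rintro ⟨h1, h2⟩
      refine ⟨?_, h2⟩
      show β t ∈ E
      rw [hE, ← (hg t h2).2]
      exact mem_image_of_mem α ⟨h1, (hg t h2).1⟩
    · rintro ⟨h1, h2⟩
      refine ⟨?_, h2⟩
      have h1' : β t ∈ E := h1
      rw [hE] at h1'
      obtain ⟨s, ⟨hs1, hs2⟩, hs3⟩ := h1'
      have : s = g t := iα hs2 (hg t h2).1 (by rw [hs3, (hg t h2).2])
      show g t ∈ F
      rw [← this]; exact hs1
  have gi : InjOn g (Icc 0 1) := by
    intro s hs t ht hst
    apply iβ hs ht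
    rw [← (hg s hs).2, ← (hg t ht).2, hst]
  refine ⟨g, gc, ContinuousOn.strictMonoOn_of_injOn_Icc' zero_le_one gc gi, ?_,
    fun t ht => (hg t ht).2⟩
  apply Subset.antisymm
  · rintro _ ⟨t, ht, rfl⟩
    exact (hg t ht).1
  · intro s hs
    have : α s ∈ β '' Icc 0 1 := h ▸ mem_image_of_mem α hs
    obtain ⟨t, ht, hst⟩ := this
    refine ⟨t, ht, ?_⟩
    apply iα (hg t ht).1 hs
    rw [(hg t ht).2, hst]

theorem same_mono {a b u w a' b' u' w' : ℂ} {α β : ℝ → ℂ} (H : HalfTan a b u w α)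
    (H' : HalfTan a' b' u' w' β) {g : ℝ → ℝ} (gc : ContinuousOn g (Icc 0 1))
    (gm : StrictMonoOn g (Icc 0 1)) (gi : g '' Icc 0 1 = Icc 0 1)
    (hg : ∀ t ∈ Icc (0:ℝ) 1, α (g t) = β t) : a' = a ∧ b' = b ∧ u' = u ∧ w' = w := by
  have m0 : (0:ℝ) ∈ Icc (0:ℝ) 1 := ⟨le_rfl, zero_le_one⟩
  have m1 : (1:ℝ) ∈ Icc (0:ℝ) 1 := ⟨zero_le_one, le_rfl⟩
  have gI : ∀ t ∈ Icc (0:ℝ) 1, g t ∈ Icc (0:ℝ) 1 := fun t ht => gi ▸ mem_image_of_mem g ht
  have g0 : g 0 = 0 := by
    obtain ⟨t, ht, h⟩ : (0:ℝ) ∈ g '' Icc 0 1 := by rw [gi]; exact m0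
    have h2 := gm.monotoneOn m0 ht ht.1
    rw [h] at h2
    exact le_antisymm h2 (gI 0 m0).1
  have g1 : g 1 = 1 := by
    obtain ⟨t, ht, h⟩ : (1:ℝ) ∈ g '' Icc 0 1 := by rw [gi]; exact m1
    refine le_antisymm (gI 1 m1).2 ?_
    have := gm.monotoneOn ht m1 ht.2
    linarith
  have ea : a' = a := by rw [← H'.zero, ← hg 0 m0, g0, H.zero]
  have eb : b' = b := by rw [← H'.one, ← hg 1 m1, g1, H.one]
  refine ⟨ea, eb, ?_, ?_⟩
  · have h : Tendsto g (𝓝[>] 0) (𝓝[>] 0) := by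
      refine tendsto_nhdsWithin_iff.2 ⟨?_, ?_⟩
      · have h1 := (gc 0 m0).tendsto
        rw [g0] at h1
        refine h1.mono_left ?_
        rw [nhdsWithin_Icc_eq_nhdsGE zero_lt_one]
        exact nhdsWithin_mono _ Ioi_subset_Ici_self
      · filter_upwards [Ioo_mem_nhdsGT (show (0:ℝ) < 1 by norm_num)] with t ht
        have := gm m0 ⟨ht.1.le, ht.2.le⟩ ht.1
        rw [g0] at this
        exact this
    refine tendsto_nhds_unique H'.tan0 ((H.tan0.comp h).congr' ?_)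
    filter_upwards [Ioo_mem_nhdsGT (show (0:ℝ) < 1 by norm_num)] with t ht
    simp only [Function.comp]
    rw [hg t ⟨ht.1.le, ht.2.le⟩, ea]
  · have h : Tendsto g (𝓝[<] 1) (𝓝[<] 1) := by
      refine tendsto_nhdsWithin_iff.2 ⟨?_, ?_⟩
      · have h1 := (gc 1 m1).tendsto
        rw [g1] at h1
        refine h1.mono_left ?_
        rw [nhdsWithin_Icc_eq_nhdsLE zero_lt_one]
        exact nhdsWithin_mono _ Iio_subset_Iic_self
      · filter_upwards [Ioo_mem_nhdsLT (show (0:ℝ) < 1 by norm_num)] with t ht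
        have := gm ⟨ht.1.le, ht.2.le⟩ m1 ht.2
        rw [g1] at this
        exact this
    refine tendsto_nhds_unique H'.tan1 ((H.tan1.comp h).congr' ?_)
    filter_upwards [Ioo_mem_nhdsLT (show (0:ℝ) < 1 by norm_num)] with t ht
    simp only [Function.comp]
    rw [hg t ⟨ht.1.le, ht.2.le⟩, eb]

/-- the data of an arc are determined up to the direction -/
theorem same {a b u w a' b' u' w' : ℂ} {α β : ℝ → ℂ} (H : HalfTan a b u w α)
    (H' : HalfTan a' b' u' w' β) (h : β '' Icc 0 1 = α '' Icc 0 1) :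
    (a' = a ∧ b' = b ∧ u' = u ∧ w' = w) ∨ (a' = b ∧ b' = a ∧ u' = w ∧ w' = u) := by
  obtain ⟨g, gc, gm | gm, gi, hg⟩ := chg H.cont H.inj H'.cont H'.inj h
  · exact Or.inl (same_mono H H' gc gm gi hg)
  · right
    refine same_mono (g := fun t => 1 - g t) (HalfTan.rev H) H' (continuousOn_const.sub gc)
      (fun s hs t ht hst => by have := gm hs ht hst; show 1 - g s < 1 - g t; linarith) ?_ ?_
    · rw [show (fun t => 1 - g t) = (fun r => 1 - r) ∘ g from rfl, image_comp, gi]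
      simp
    · intro t ht
      show α (1 - (1 - g t)) = β t
      rw [sub_sub_cancel, hg t ht]

end Pool.Agent.H687.TG
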