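import Pool.Agent.H687.TG.Fin
import Pool.Agent.H687.TG.Col
import Pool.Agent.H687.TG.Par

/-! Charges of all arcs with half tangents. -/

set_option autoImplicit false
open Complex Set Topology Metric Filter

namespace Pool.Agent.H687.TG

open Pool.Agent.H763R2 Pool.Agent.H763R2.An Pool.Agent.Y535.PEG Pool.Agent.H687.K4
open Pool.Agent.H763R2.Dm (NoSq)
open Pool.Agent.H687.TC (HalfTan NoPair Cone cone_pair exrot)

/-- the datum of an end -/
def pe {A : Type*} {m : ℕ} (a b : Fin m → A) (e : Dart m) : A := if e.2 then a e.1 else b e.1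

theorem finite {m : ℕ} (α : Fin m → ℝ → ℂ) (a b u w : Fin m → ℂ)
    (H : ∀ i, HalfTan (a i) (b i) (u i) (w i) (α i)) :
    ∃ f : Fin m → ZMod 2, ∀ (l : ℕ) (e : ZMod (l + 1) → Dart m),
      (∀ q, pe a b (rv (e q)) = pe a b (e (q + 1))) →
      (∀ q, pe u w (rv (e (q - 1))) ≠ pe u w (e q)) →
      (∀ q q', q ≠ q' → Disjoint (α (e q).1 '' Icc 0 1 \ {pe a b (rv (e q))})
        (α (e q').1 '' Icc 0 1 \ {pe a b (rv (e q'))})) →
      NoSq (⋃ q, α (e q).1 '' Icc 0 1) → ∑ q, f (e q).1 = 1 := by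
  classical
  obtain ⟨T, hTd⟩ : ∃ T : Dart m → ℂ, T = pe u w := ⟨_, rfl⟩
  have hT1 : ∀ e, ‖T e‖ = 1 := by
    intro e
    rw [hTd]
    unfold pe
    split_ifs
    · exact (H _).nu
    · exact (H _).nw
  -- vertices
  obtain ⟨S, hS⟩ : ∃ S : Finset ℂ, S = Finset.univ.image (pe a b) := ⟨_, rfl⟩
  have mS : ∀ e : Dart m, pe a b e ∈ S := fun e => by
    rw [hS]; exact Finset.mem_image_of_mem _ (Finset.mem_univ e)
  obtain ⟨K, hK⟩ : ∃ K, K = S.card := ⟨_, rfl⟩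
  obtain ⟨E⟩ : Nonempty (S ≃ Fin K) := by rw [hK]; exact ⟨S.equivFin⟩
  obtain ⟨P, hP⟩ : ∃ P : Fin K → ℂ, P = fun x => (E.symm x : ℂ) := ⟨_, rfl⟩
  have Pi : Function.Injective P := fun x y h => by
    rw [hP] at h
    exact E.symm.injective (Subtype.ext h)
  obtain ⟨s, hs⟩ : ∃ s : Fin m → Fin K, s = fun i => E ⟨pe a b (i, true), mS _⟩ := ⟨_, rfl⟩
  obtain ⟨t, ht⟩ : ∃ t : Fin m → Fin K, t = fun i => E ⟨pe a b (i, false), mS _⟩ := ⟨_, rfl⟩
  have Ps : ∀ i, P (s i) = a i := fun i => by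
    rw [hP, hs]; simp only [Equiv.symm_apply_apply]; rfl
  have Pt : ∀ i, P (t i) = b i := fun i => by
    rw [hP, ht]; simp only [Equiv.symm_apply_apply]; rfl
  have Psr : ∀ e : Dart m, P (src s t e) = pe a b e := by
    intro e
    unfold src pe
    split_ifs
    · exact Ps _
    · exact Pt _
  -- constants
  obtain ⟨θ0, hθ0, Hθ⟩ := exists_min (β := Dart m × Dart m) (P := fun p x =>
    T p.1 ≠ T p.2 → ∀ θ ≤ x, NoPair (T p.1) (T p.2) θ)
    (fun p x y h hyx _ => fun h1 θ hθ => h h1 θ (hθ.trans hyx))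
    (fun p => by
      by_cases h : T p.1 = T p.2
      · exact ⟨1, one_pos, fun h' => absurd h h'⟩
      · obtain ⟨x, hx, hx'⟩ := cone_pair (hT1 p.1) (hT1 p.2) h
        exact ⟨x, hx, fun _ => hx'⟩)
  obtain ⟨θ, hθ, hθ1, hθ2⟩ : ∃ θ > 0, θ ≤ θ0 ∧ θ ≤ 1 / 100 :=
    ⟨min θ0 (1 / 100), lt_min hθ0 (by norm_num), min_le_left _ _, min_le_right _ _⟩
  obtain ⟨rot, hrot, C', hC', δ, hδ, hT⟩ := exrot (tn T) (by
    intro p
    match p with
    | none => exact norm_one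
    | some e => exact hT1 e) (2 * (K + 2 * m) * (K + 2 * m))
  obtain ⟨C, hCC, hCn⟩ : ∃ C, C' ≤ C ∧
      (1 + 2 * ((K + 2 * m : ℕ) : ℝ) * ((K + 2 * m : ℕ) : ℝ)) *
      (1 + 2 * ((K + 2 * m : ℕ) : ℝ) * ((K + 2 * m : ℕ) : ℝ)) ≤ C :=
    ⟨max C' _, le_max_left _ _, le_max_right _ _⟩
  have hC0 : 0 < C := lt_of_lt_of_le hC' hCC
  obtain ⟨θ1, h1, h2, h3⟩ : ∃ θ1 > 0, θ1 ≤ δ ∧ (8 * C + 18) * θ1 ≤ θ := by
    refine ⟨min δ (θ / (8 * C + 18)), lt_min hδ (by positivity), min_le_left _ _, ?_⟩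
    have := min_le_right δ (θ / (8 * C + 18))
    rw [le_div_iff₀ (by positivity)] at this
    linarith
  choose β b1 b2 b3 b4 b5 b6 b7 b8 using fun i => (H i).repar h1
  have b5' : ∀ i, β i 0 = P (s i) := fun i => by rw [b5, Ps]
  have b6' : ∀ i, β i 1 = P (t i) := fun i => by rw [b6, Pt]
  obtain ⟨f, hf⟩ := fin_cone β b1 b2 b5' b6' hT1 hrot (C := C) (δ := δ) (θ := θ) (θ1 := θ1)
    (fun p k hk D v hD hv => ⟨(hT p k hk D v hD hv).1, ((hT p k hk D v hD hv).2).trans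
      (mul_le_mul_of_nonneg_right hCC (abs_nonneg _))⟩) h1 h2 hCn h3 hθ2
    (fun e r hr => by
      rw [Psr, hTd]
      unfold bd pe
      split_ifs
      · exact b7 _ r hr
      · exact b8 _ _ ⟨by linarith [hr.2], by linarith [hr.1]⟩)
    (fun e e' h => Hθ (e, e') h θ hθ1)
  refine ⟨f, fun l e g1 g2 g3 g4 => hf l e ?_⟩
  have e0 : ∀ e : Dart m, bd β e 0 = pe a b e := fun e => by rw [bd_zero b5' b6', Psr]
  have e1 : ∀ e : Dart m, bd β e 1 = pe a b (rv e) := fun e => by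
    rw [← e0 (rv e), bd_rv, sub_zero]
  have mem : ∀ (e : Dart m), ∀ r ∈ Ico (0:ℝ) 1,
      bd β e r ∈ α e.1 '' Icc 0 1 \ {pe a b (rv e)} := by
    intro e r hr
    refine ⟨?_, fun h => ?_⟩
    · rw [← b3, ← bd_img β e]
      exact mem_image_of_mem _ ⟨hr.1, hr.2.le⟩
    · rw [mem_singleton_iff, ← e1] at h
      have := bd_inj b2 e ⟨hr.1, hr.2.le⟩ ⟨zero_le_one, le_rfl⟩ h
      linarith [hr.2]
  have dis : ∀ q q', q ≠ q' → ∀ r ∈ Ico (0:ℝ) 1, ∀ r' ∈ Ico (0:ℝ) 1,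
      bd β (e q) r ≠ bd β (e q') r' := by
    intro q q' hq r hr r' hr' h
    exact disjoint_left.1 (g3 q q' hq) (mem (e q) r hr) (h ▸ mem (e q') r' hr')
  refine ⟨⟨fun q => Pi (by rw [Psr, Psr]; exact g1 q), ?_, ?_, dis⟩, fun q => by
    rw [hTd]; exact g2 q, ?_⟩
  · intro q q' h
    by_contra hq
    apply dis q q' hq (1 / 2) ⟨by norm_num, by norm_num⟩ (1 / 2) ⟨by norm_num, by norm_num⟩
    simp only at h
    unfold bd
    rw [h]
    split_ifs <;> norm_num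
  · intro q q' h
    by_contra hq
    apply dis q q' hq 0 ⟨le_rfl, by norm_num⟩ 0 ⟨le_rfl, by norm_num⟩
    simp only at h
    rw [bd_zero b5' b6', bd_zero b5' b6', h]
  · simp only [b3]
    exact g4

/-- `A` is an arc with the ends `a` and `b` and the half tangents `u` at `a` and `w` at `b` -/
def ArcHT (a b u w : ℂ) (A : Set ℂ) : Prop := ∃ α, HalfTan a b u w α ∧ A = α '' Icc 0 1

/-- a closed chain of arcs -/
structure Chain {l : ℕ} (A : ZMod (l + 1) → Set ℂ) (p u w : ZMod (l + 1) → ℂ) : Prop where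
  arc : ∀ q, ArcHT (p q) (p (q + 1)) (u q) (w q) (A q)
  tan : ∀ q, w (q - 1) ≠ u q
  disj : ∀ q q', q ≠ q' → Disjoint (A q \ {p (q + 1)}) (A q' \ {p (q' + 1)})

/-- **Charges of arcs.** -/
theorem charge : ∃ χ : Set ℂ → ZMod 2, ∀ (l : ℕ) (A : ZMod (l + 1) → Set ℂ)
    (p u w : ZMod (l + 1) → ℂ), Chain A p u w → NoSq (⋃ q, A q) → ∑ q, χ (A q) = 1 := by
  classical
  obtain ⟨χ, hχ⟩ := colours
    (X := {A : Set ℂ // ∃ r : ℂ × ℂ × ℂ × ℂ, ArcHT r.1 r.2.1 r.2.2.1 r.2.2.2 A})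
    (fun l y => (∃ p u w, Chain (fun q => (y q).1) p u w) ∧ NoSq (⋃ q, (y q).1))
    (fun m x => by
      choose r hr using fun i => (x i).2
      choose α h1 h2 using hr
      obtain ⟨f, hf⟩ := finite α (fun i => (r i).1) (fun i => (r i).2.1) (fun i => (r i).2.2.1)
        (fun i => (r i).2.2.2) h1
      refine ⟨f, fun l j ⟨⟨p, u, w, Ch⟩, hno⟩ => ?_⟩
      have key : ∀ q, ∃ b : Bool,
          p q = pe (fun i => (r i).1) (fun i => (r i).2.1) (j q, b) ∧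
          p (q + 1) = pe (fun i => (r i).1) (fun i => (r i).2.1) (rv (j q, b)) ∧
          u q = pe (fun i => (r i).2.2.1) (fun i => (r i).2.2.2) (j q, b) ∧
          w q = pe (fun i => (r i).2.2.1) (fun i => (r i).2.2.2) (rv (j q, b)) := by
        intro q
        obtain ⟨β, k1, k2⟩ := Ch.arc q
        rcases same (h1 (j q)) k1 (by rw [← k2, ← h2 (j q)]) with ⟨c1, c2, c3, c4⟩ |
          ⟨c1, c2, c3, c4⟩
        · exact ⟨true, c1, c2, c3, c4⟩
        · exact ⟨false, c1, c2, c3, c4⟩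
      choose b c1 c2 c3 c4 using key
      refine hf l (fun q => (j q, b q)) (fun q => ?_) (fun q => ?_) (fun q q' hq => ?_) ?_
      · rw [← c2, ← c1]
      · rw [← c4, ← c3]; exact Ch.tan q
      · rw [← c2, ← c2]
        have := Ch.disj q q' hq
        simp only
        rw [← h2, ← h2]
        exact this
      · simp only [← h2]
        exact hno)
  refine ⟨fun A => if h : ∃ r : ℂ × ℂ × ℂ × ℂ, ArcHT r.1 r.2.1 r.2.2.1 r.2.2.2 A then χ ⟨A, h⟩
    else 0, fun l A p u w Ch hno => ?_⟩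
  have g : ∀ q, ∃ r : ℂ × ℂ × ℂ × ℂ, ArcHT r.1 r.2.1 r.2.2.1 r.2.2.2 (A q) := fun q =>
    ⟨(p q, p (q + 1), u q, w q), Ch.arc q⟩
  have := hχ l (fun q => ⟨A q, g q⟩) ⟨⟨p, u, w, Ch⟩, hno⟩
  rw [← this]
  exact Finset.sum_congr rfl fun q _ => dif_pos (g q)

/-- a closed chain of arcs is a Jordan curve -/
theorem Chain.jordan {l : ℕ} {A : ZMod (l + 1) → Set ℂ} {p u w : ZMod (l + 1) → ℂ}
    (Ch : Chain A p u w) : ∃ γ : Circle → ℂ, Continuous γ ∧ Function.Injective γ ∧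
      range γ = ⋃ q, A q := by
  choose α h1 h2 using Ch.arc
  choose β b1 b2 b3 b4 b5 b6 b7 b8 using fun q => (h1 q).repar one_pos
  obtain ⟨E⟩ : Nonempty (ZMod (l + 1) ≃ Fin (l + 1)) :=
    ⟨Fintype.equivFinOfCardEq (ZMod.card (l + 1))⟩
  obtain ⟨β', hβ'⟩ : ∃ β' : Fin (l + 1) → ℝ → ℂ, β' = fun i => β (E.symm i) := ⟨_, rfl⟩
  have hb : ∀ q, β' (E q) = β q := fun q => by rw [hβ']; simp
  obtain ⟨P, hP⟩ : ∃ P : Fin (l + 1) → ℂ, P = fun i => p (E.symm i) := ⟨_, rfl⟩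
  obtain ⟨s, hs⟩ : ∃ s : Fin (l + 1) → Fin (l + 1), s = fun i => i := ⟨_, rfl⟩
  obtain ⟨t, ht⟩ : ∃ t : Fin (l + 1) → Fin (l + 1), t = fun i => E (E.symm i + 1) := ⟨_, rfl⟩
  obtain ⟨e, he⟩ : ∃ e : ZMod (l + 1) → Dart (l + 1), e = fun q => (E q, true) := ⟨_, rfl⟩
  have hbe : ∀ q r, bd β' (e q) r = β q r := fun q r => by
    rw [he]; unfold bd; rw [if_pos rfl, hb]
  obtain ⟨ψ, hψ, Hψ⟩ := ex_psi (P := P) (s := s) (t := t) β' (fun i => by rw [hβ']; exact b1 _)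
    (fun i => by rw [hβ', hP, hs]; exact b5 _) (fun i => by
      rw [hβ', hP, ht]; simp only [Equiv.symm_apply_apply]; exact b6 _)
  have hi : ∀ i, InjOn (β' i) (Icc 0 1) := fun i => by rw [hβ']; exact b2 _
  have mem : ∀ q, ∀ r ∈ Ico (0:ℝ) 1, β q r ∈ A q \ {p (q + 1)} := by
    intro q r hr
    refine ⟨?_, fun h => ?_⟩
    · rw [h2, ← b3]
      exact mem_image_of_mem _ ⟨hr.1, hr.2.le⟩
    · rw [mem_singleton_iff, ← b6 q] at h
      have := b2 q ⟨hr.1, hr.2.le⟩ ⟨zero_le_one, le_rfl⟩ h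
      linarith [hr.2]
  have Gd : Good0 s t β' e := by
    refine ⟨fun q => ?_, fun q q' h => ?_, fun q q' h => ?_, fun q q' hq r hr r' hr' h => ?_⟩
    · rw [he, hs, ht]
      unfold src rv
      simp
    · rw [he] at h
      exact E.injective h
    · rw [he, hs] at h
      unfold src at h
      simpa using h
    · rw [hbe, hbe] at h
      exact disjoint_left.1 (Ch.disj q q' hq) (mem q r hr) (h ▸ mem q' r' hr')
  have hl := Gd.loop hψ (by omega)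
  have hj := Gd.inj_range Hψ (by omega) hi
  refine ⟨cir hl, cir_cont hl, cir_inj hl hj.1, ?_⟩
  rw [range_cir, hj.2]
  refine iUnion_congr fun q => ?_
  rw [he]
  simp only
  rw [hb, b3, ← h2]

end Pool.Agent.H687.TG
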