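import Pool.Agent.H687.TC.Sub

/-! Lines with one straight line at the vertices with index less than `K`. -/

set_option autoImplicit false
open Complex Set Topology Metric

namespace Pool.Agent.H687.TG

open Pool.Agent.H763R2 Pool.Agent.H763R2.An Pool.Agent.Y535.PEG Pool.Agent.H687.K4
open Pool.Agent.H687.TC (Xl_near3 Xl_pt cr_Xl close_gen cr_rot ArmP arm_mk NiceE Vp_zero Vp_pos Bx)

variable {n L M K : ℕ} {v : ℤ → Fin n} {ψ : (Fin n → ℝ) → ℂ}

/-- directions -/
noncomputable def dd (K : ℕ) (rot : ℂ) (D : Fin n → Fin n → ℂ) (z : Ix n M) : ℂ :=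
  if z.1.val < K ∧ z.2.2.val = 0 then D z.1 z.2.1 else rot * d0 z

/-- base points -/
noncomputable def pb (K : ℕ) (ψ : (Fin n → ℝ) → ℂ) (τ : Fin n → Fin n → ℝ) (z : Ix n M) : ℂ :=
  if z.1.val < K ∧ z.2.2.val = 0 then ψ (Pi.single z.1 1) else
    ψ (ep z.1 z.2.1 (max ((z.2.2.val : ℝ) / ((M : ℝ) - 1)) (τ z.1 z.2.1)))

theorem cr_ix {rot : ℂ} {D : Fin n → Fin n → ℂ} (hrot : ‖rot‖ = 1) {C : ℝ}
    (hC : (1 + 2 * (n:ℝ) * n) * (1 + 2 * n * n) ≤ C) {z w : Ix n M}
    (hz : ¬ (z.1.val < K ∧ z.2.2.val = 0)) (hw : ¬ (w.1.val < K ∧ w.2.2.val = 0))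
    (h : sl z ≠ sl w) : An.cr (dd K rot D z) (dd K rot D w) ≠ 0 ∧
      ‖dd K rot D z‖ * ‖dd K rot D w‖ ≤ C * |An.cr (dd K rot D z) (dd K rot D w)| := by
  unfold dd
  rw [if_neg hz, if_neg hw, cr_rot _ _ _ hrot, norm_mul, norm_mul, hrot, one_mul, one_mul]
  have h1 := cr_ge h
  have h2 := norm_d0 z
  have h3 := norm_d0 w
  refine ⟨fun h0 => ?_, ?_⟩
  · rw [h0, abs_zero] at h1; linarith
  · have h4 : ‖d0 z‖ * ‖d0 w‖ ≤ (1 + 2 * (n:ℝ) * n) * (1 + 2 * n * n) :=
      mul_le_mul h2 h3 (norm_nonneg _) (by positivity)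
    have h5 : 0 ≤ C := le_trans (by positivity) hC
    nlinarith

/-- directions of consecutive lines of a walk -/
theorem cr_sv (W : Walk L v) (hM : 2 ≤ M) {rot : ℂ} {D : Fin n → Fin n → ℂ} (hrot : ‖rot‖ = 1)
    {C : ℝ} (hC : (1 + 2 * (n:ℝ) * n) * (1 + 2 * n * n) ≤ C)
    (h1 : ∀ (x y : Fin n) (j : ZMod M), x.val < K → An.cr (D x y) (rot * d0 (x, y, j)) ≠ 0 ∧
      ‖D x y‖ * ‖rot * d0 (x, y, j)‖ ≤ C * |An.cr (D x y) (rot * d0 (x, y, j))|)
    (h2 : ∀ k, (v k).val < K → An.cr (D (v k) (v (k - 1))) (D (v k) (v (k + 1))) ≠ 0 ∧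
      ‖D (v k) (v (k - 1))‖ * ‖D (v k) (v (k + 1))‖ ≤
        C * |An.cr (D (v k) (v (k - 1))) (D (v k) (v (k + 1)))|)
    (h3 : ∀ k, (v k).val < K → K ≤ (v (k + 1)).val ∧ K ≤ (v (k - 1)).val) (N : ℤ) :
    An.cr (dd K rot D (sv M v (N - 1))) (dd K rot D (sv M v N)) ≠ 0 ∧
      ‖dd K rot D (sv M v (N - 1))‖ * ‖dd K rot D (sv M v N)‖ ≤
        C * |An.cr (dd K rot D (sv M v (N - 1))) (dd K rot D (sv M v N))| := by
  obtain ⟨k, j, hj0, hj1, rfl⟩ := exkj (M := M) (by omega) N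
  have hsl := W.sv_sl hM (k * M + j)
  rcases lt_or_eq_of_le hj0 with h | h
  · rw [add_sub_assoc, sv_at (by omega) (by omega), sv_at hj0 hj1]
    rw [add_sub_assoc, sv_at (by omega) (by omega), sv_at hj0 hj1] at hsl
    have hne := W.ne1 k
    rcases lt_or_gt_of_ne hne with hlt | hlt
    · -- oriented from the smaller vertex
      have e1 : ix M (v k) (v (k + 1)) (j - 1) = (v k, v (k + 1), ((j - 1 : ℤ) : ZMod M)) := by
        unfold ix; rw [if_pos hlt]
      have e2 : ix M (v k) (v (k + 1)) j = (v k, v (k + 1), (j : ZMod M)) := by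
        unfold ix; rw [if_pos hlt]
      rw [e1, e2] at hsl ⊢
      have v1 := val_lo (M := M) (j := j) hj0 hj1
      have v2 := val_lo (M := M) (j := j - 1) (by omega) (by omega)
      by_cases hc : (v k).val < K ∧ (((j - 1 : ℤ) : ZMod M)).val = 0
      · have hn : ¬ ((v k).val < K ∧ ((j : ZMod M)).val = 0) := by
          rintro ⟨-, h'⟩; omega
        have a1 : dd K rot D (v k, v (k + 1), ((j - 1 : ℤ) : ZMod M)) = D (v k) (v (k + 1)) := by
          unfold dd; rw [if_pos hc]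
        have a2 : dd K rot D (v k, v (k + 1), (j : ZMod M)) =
            rot * d0 (v k, v (k + 1), (j : ZMod M)) := by
          unfold dd; rw [if_neg hn]
        rw [a1, a2]
        exact h1 _ _ _ hc.1
      · exact cr_ix hrot hC hc (by rintro ⟨-, h'⟩; simp only at h'; omega) hsl
    · have e1 : ix M (v k) (v (k + 1)) (j - 1) =
          (v (k + 1), v k, ((-1 - (j - 1) : ℤ) : ZMod M)) := by
        unfold ix; rw [if_neg hlt.not_gt]
      have e2 : ix M (v k) (v (k + 1)) j = (v (k + 1), v k, ((-1 - j : ℤ) : ZMod M)) := by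
        unfold ix; rw [if_neg hlt.not_gt]
      rw [e1, e2] at hsl ⊢
      have v1 := val_hi (M := M) (j := j) hj0 hj1
      have v2 := val_hi (M := M) (j := j - 1) (by omega) (by omega)
      by_cases hc : (v (k + 1)).val < K ∧ (((-1 - j : ℤ) : ZMod M)).val = 0
      · have hn : ¬ ((v (k + 1)).val < K ∧ (((-1 - (j - 1) : ℤ) : ZMod M)).val = 0) := by
          rintro ⟨-, h'⟩; omega
        have a1 : dd K rot D (v (k + 1), v k, ((-1 - j : ℤ) : ZMod M)) = D (v (k + 1)) (v k) := by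
          unfold dd; rw [if_pos hc]
        have a2 : dd K rot D (v (k + 1), v k, ((-1 - (j - 1) : ℤ) : ZMod M)) =
            rot * d0 (v (k + 1), v k, ((-1 - (j - 1) : ℤ) : ZMod M)) := by
          unfold dd; rw [if_neg hn]
        rw [a1, a2, cr_comm, abs_neg, neg_ne_zero, mul_comm (‖rot * _‖)]
        exact h1 _ _ _ hc.1
      · exact cr_ix hrot hC (by rintro ⟨-, h'⟩; simp only at h'; omega) hc hsl
  · subst h
    have e0 : k * (M:ℤ) + 0 - 1 = (k - 1) * M + (M - 1) := by ring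
    rw [e0, sv_at (j := (M:ℤ) - 1) (by omega) (by omega), sv_at le_rfl hj1, sub_add_cancel] at hsl ⊢
    have hne1 : v (k - 1) ≠ v k := by
      have := W.ne1 (k - 1)
      rwa [sub_add_cancel] at this
    have hne2 := W.ne1 k
    by_cases hk : (v k).val < K
    · have l1 : v k < v (k - 1) := by
        rw [Fin.lt_def]; have := (h3 k hk).2; omega
      have l2 : v k < v (k + 1) := by
        rw [Fin.lt_def]; have := (h3 k hk).1; omega
      have e1 : ix M (v (k - 1)) (v k) ((M:ℤ) - 1) =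
          (v k, v (k - 1), ((-1 - ((M:ℤ) - 1) : ℤ) : ZMod M)) := by
        unfold ix; rw [if_neg l1.not_gt]
      have e2 : ix M (v k) (v (k + 1)) 0 = (v k, v (k + 1), ((0 : ℤ) : ZMod M)) := by
        unfold ix; rw [if_pos l2]
      rw [e1, e2]
      have v1 := val_hi (M := M) (j := (M:ℤ) - 1) (by omega) (by omega)
      have v2 := val_lo (M := M) (j := 0) le_rfl (by omega)
      have a1 : dd K rot D (v k, v (k - 1), ((-1 - ((M:ℤ) - 1) : ℤ) : ZMod M)) =
          D (v k) (v (k - 1)) := by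
        unfold dd; rw [if_pos ⟨hk, by simp only; omega⟩]
      have a2 : dd K rot D (v k, v (k + 1), ((0 : ℤ) : ZMod M)) = D (v k) (v (k + 1)) := by
        unfold dd; rw [if_pos ⟨hk, by simp only; omega⟩]
      rw [a1, a2]
      exact h2 k hk
    · refine cr_ix hrot hC ?_ ?_ hsl
      · unfold ix
        split_ifs with hlt
        · have v1 := val_lo (M := M) (j := (M:ℤ) - 1) (by omega) (by omega)
          rintro ⟨-, h'⟩
          simp only at h'
          omega
        · rintro ⟨h', -⟩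
          exact hk h'
      · unfold ix
        split_ifs with hlt
        · rintro ⟨h', -⟩
          exact hk h'
        · have v1 := val_hi (M := M) (j := 0) le_rfl (by omega)
          rintro ⟨-, h'⟩
          simp only at h'
          omega

end Pool.Agent.H687.TG
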