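import Pool.Agent.H687.TG.Line

/-! The arms of the polygonal paths. -/

set_option autoImplicit false
open Complex Set Topology Metric

namespace Pool.Agent.H687.TG

open Pool.Agent.H763R2 Pool.Agent.H763R2.An Pool.Agent.Y535.PEG Pool.Agent.H687.K4
open Pool.Agent.H687.TC (Xl_near3 Xl_pt cr_Xl close_gen cr_rot ArmP arm_mk NiceE Vp_zero Vp_pos Bx
  Cone)

variable {n L M K : ℕ} {v : ℤ → Fin n} {ψ : (Fin n → ℝ) → ℂ}
variable {d : Ix n M → ℂ} {κ : Ix n M → ℝ}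

theorem dd_zero {rot : ℂ} {D : Fin n → Fin n → ℂ} {x y : Fin n} (hx : x.val < K) :
    dd K rot D ((x, y, 0) : Ix n M) = D x y := by
  unfold dd
  rw [if_pos ⟨hx, by simp⟩]

theorem dd_pos {rot : ℂ} {D : Fin n → Fin n → ℂ} {x y : Fin n} {N : ℤ} (h1 : 1 ≤ N) (h2 : N < M) :
    dd K rot D ((x, y, (N : ZMod M)) : Ix n M) = rot * d0 ((x, y, (N : ZMod M)) : Ix n M) := by
  unfold dd
  rw [if_neg]
  rintro ⟨-, h⟩
  have := val_lo (M := M) (j := N) (by omega) h2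
  simp only at h
  omega

theorem pb_zero {τ : Fin n → Fin n → ℝ} {x y : Fin n} (hx : x.val < K) :
    pb K ψ τ ((x, y, 0) : Ix n M) = ψ (Pi.single x 1) := by
  unfold pb
  rw [if_pos ⟨hx, by simp⟩]

theorem pb_pos {τ : Fin n → Fin n → ℝ} {x y : Fin n} {N : ℤ} (h1 : 1 ≤ N) (h2 : N < M) :
    pb K ψ τ ((x, y, (N : ZMod M)) : Ix n M) = ψ (ep x y (max ((N : ℝ) / ((M : ℝ) - 1)) (τ x y))) := by
  have := val_lo (M := M) (j := N) (by omega) h2
  have h3 : (((N : ZMod M).val : ℕ) : ℝ) = N := by exact_mod_cast this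
  unfold pb
  rw [if_neg]
  · simp only
    rw [h3]
  · rintro ⟨-, h⟩
    simp only at h
    omega

/-- the arms of the polygonal paths -/
theorem armP (hM : 8 ≤ M) {rot : ℂ} {D : Fin n → Fin n → ℂ} {τ : Fin n → Fin n → ℝ}
    {C θ θ1 ρ ε1 ε'' : ℝ} {T : ℂ} {x y y' : Fin n} (hrot : ‖rot‖ = 1) (hx : x.val < K)
    (hxy : x < y) (hxy' : x < y') (hC : (1 + 2 * (n:ℝ) * n) * (1 + 2 * n * n) ≤ C)
    (hT : ‖T‖ = 1) (hD : ‖D x y - T‖ ≤ θ1) (hθ1 : 0 ≤ θ1)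
    (hcl : ∀ i j : Ix n M, An.cr (dd K rot D i) (dd K rot D j) ≠ 0 →
      ‖Xl (d i) (d j) (κ i) (κ j) - Xl (dd K rot D i) (dd K rot D j)
        (An.cr (dd K rot D i) (pb K ψ τ i)) (An.cr (dd K rot D j) (pb K ψ τ j))‖ < ε'')
    (hDD : An.cr (D x y') (D x y) ≠ 0)
    (hDr : An.cr (D x y) (rot * d0 ((x, y, ((1 : ℤ) : ZMod M)) : Ix n M)) ≠ 0 ∧
      ‖D x y‖ * ‖rot * d0 ((x, y, ((1 : ℤ) : ZMod M)) : Ix n M)‖ ≤
        C * |An.cr (D x y) (rot * d0 ((x, y, ((1 : ℤ) : ZMod M)) : Ix n M))|)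
    (E : NiceE ψ x y T ρ (τ x y) θ1) (hMτ : 1 / ((M:ℝ) - 1) ≤ τ x y)
    (hε1 : ∀ s ∈ Icc (0:ℝ) 1, ∀ t ∈ Icc (0:ℝ) 1, |s - t| ≤ 1 / ((M:ℝ) - 1) →
      ‖ψ (ep x y s) - ψ (ep x y t)‖ ≤ ε1)
    (h1 : (C + 1) * ε1 ≤ θ1 * ρ / 2) (h2 : ε'' ≤ θ1 * ρ / 2) (hθ : (8 * C + 18) * θ1 ≤ θ)
    (hθ2 : θ ≤ 1 / 100) :
    ArmP (PP d κ (sc M y' x y)) (3 * M / 4) (Vp d κ (sc M y' x y) 0) (Vp d κ (sc M y' x y) 1)
      T θ ∧ ‖Vp d κ (sc M y' x y) 0 - ψ (Pi.single x 1)‖ ≤ θ1 * ρ / 2 ∧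
      ρ / 2 ≤ ‖Vp d κ (sc M y' x y) 1 - Vp d κ (sc M y' x y) 0‖ := by
  have hM8 : (8:ℝ) ≤ M := by exact_mod_cast hM
  have hM1 : (0:ℝ) < (M:ℝ) - 1 := by linarith
  have hC0 : 0 ≤ C := le_trans (by positivity) hC
  have hρ := E.hρ
  obtain ⟨p, hp⟩ : ∃ p, p = ψ (Pi.single x 1) := ⟨_, rfl⟩
  obtain ⟨e, he⟩ : ∃ e : ℝ → ℂ, e = fun t => ψ (ep x y t) := ⟨_, rfl⟩
  obtain ⟨V, hV⟩ : ∃ V : ℤ → ℂ, V = Vp d κ (sc M y' x y) := ⟨_, rfl⟩
  obtain ⟨tt, htt⟩ : ∃ tt : ℤ → ℝ, tt = fun N : ℤ => max ((N : ℝ) / ((M : ℝ) - 1)) (τ x y) := ⟨_, rfl⟩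
  have tt1 : tt 1 = τ x y := by rw [htt]; simp only; push_cast; exact max_eq_right hMτ
  have ttI : ∀ N : ℤ, 1 ≤ N → N < M → tt N ∈ Icc (τ x y) 1 := by
    intro N _ hN
    rw [htt]
    refine ⟨le_max_right _ _, max_le ?_ E.τ1.le⟩
    rw [div_le_one hM1]
    have : N ≤ (M:ℤ) - 1 := by omega
    have h3 : (N:ℝ) ≤ (((M:ℤ) - 1 : ℤ) : ℝ) := by exact_mod_cast this
    push_cast at h3
    exact h3
  have ttI' : ∀ N : ℤ, 1 ≤ N → N < M → tt N ∈ Icc (0:ℝ) 1 := fun N a b =>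
    ⟨E.τ0.le.trans (ttI N a b).1, (ttI N a b).2⟩
  have step : ∀ N : ℤ, 2 ≤ N → N < M → ‖e (tt N) - e (tt (N - 1))‖ ≤ ε1 := by
    intro N h3 h4
    rw [he]
    refine hε1 _ (ttI' N (by omega) h4) _ (ttI' (N - 1) (by omega) (by omega)) ?_
    rw [htt]
    simp only
    refine (abs_max_sub_max_le_abs _ _ _).trans ?_
    rw [← sub_div]
    push_cast
    rw [sub_sub_cancel, abs_of_nonneg (by positivity)]
  -- vertices
  have v0 : ‖V 0 - p‖ < ε'' := by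
    rw [hV, Vp_zero hxy hxy']
    have := hcl (x, y', 0) (x, y, 0) (by rw [dd_zero hx, dd_zero hx]; exact hDD)
    rw [dd_zero hx, dd_zero hx, pb_zero hx, pb_zero hx, Xl_pt hDD] at this
    rw [hp]; exact this
  have eτ : ‖e (τ x y) - (p + ρ * D x y)‖ ≤ 2 * θ1 * ρ := by
    have c1 := E.cone (τ x y) ⟨E.τ0.le, E.τ1.le⟩
    unfold TC.Cone at c1
    simp only [mem_ofPred_eq] at c1
    rw [E.at'] at c1
    have e1 : e (τ x y) - (p + ρ * D x y) = (ψ (ep x y (τ x y)) - ψ (Pi.single x 1) - ρ * T) -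
        ρ * (D x y - T) := by rw [he, hp]; ring
    rw [e1]
    refine (norm_sub_le _ _).trans ?_
    rw [norm_mul, norm_real, Real.norm_of_nonneg hρ.le]
    have := mul_le_mul_of_nonneg_left hD hρ.le
    linarith
  have v1 : ‖V 1 - (p + ρ * D x y)‖ < C * (2 * θ1 * ρ) + ε'' := by
    rw [hV, Vp_pos hxy le_rfl]
    have e0 : (((1 : ℤ) - 1 : ℤ) : ZMod M) = 0 := by push_cast; ring
    rw [e0]
    have h1M : (1:ℤ) < M := by omega
    have := hcl (x, y, 0) (x, y, ((1:ℤ) : ZMod M)) (by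
      rw [dd_zero hx, dd_pos le_rfl h1M]; exact hDr.1)
    rw [dd_zero hx, dd_pos le_rfl h1M, pb_zero hx, pb_pos le_rfl h1M] at this
    have e3 : An.cr (D x y) (ψ (Pi.single x 1)) = An.cr (D x y) (p + ρ * D x y) := by
      rw [hp]; unfold An.cr; simp; ring
    have e4 := Xl_near3 (P1 := p + ρ * D x y) (P2 := e (τ x y)) hDr.1 hDr.2
    have e5 : max (((1:ℤ) : ℝ) / ((M : ℝ) - 1)) (τ x y) = τ x y := by
      push_cast; exact max_eq_right hMτ
    rw [e3, e5] at this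
    have e6 : e (τ x y) = ψ (ep x y (τ x y)) := by rw [he]
    rw [e6] at e4 eτ
    have e7 := mul_le_mul_of_nonneg_left eτ hC0
    refine lt_of_le_of_lt (norm_sub_le_norm_sub_add_norm_sub _ (Xl (D x y)
      (rot * d0 ((x, y, ((1 : ℤ) : ZMod M)) : Ix n M)) (An.cr (D x y) (p + ρ * D x y))
      (An.cr (rot * d0 ((x, y, ((1 : ℤ) : ZMod M)) : Ix n M)) (ψ (ep x y (τ x y))))) _) ?_
    linarith
  have vN : ∀ N : ℤ, 2 ≤ N → N < M → ‖V N - e (tt (N - 1))‖ < C * ε1 + ε'' := by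
    intro N h3 h4
    rw [hV, Vp_pos hxy (by omega)]
    have a1 : ¬ ((x, y, ((N - 1 : ℤ) : ZMod M)) : Ix n M).1.val < K ∨
        ¬ ((x, y, ((N - 1 : ℤ) : ZMod M)) : Ix n M).2.2.val = 0 := by
      right
      have := val_lo (M := M) (j := N - 1) (by omega) (by omega)
      simp only
      omega
    have a2 : ¬ ((x, y, ((N : ℤ) : ZMod M)) : Ix n M).1.val < K ∨
        ¬ ((x, y, ((N : ℤ) : ZMod M)) : Ix n M).2.2.val = 0 := by
      right
      have := val_lo (M := M) (j := N) (by omega) (by omega)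
      simp only
      omega
    have hs : sl ((x, y, ((N - 1 : ℤ) : ZMod M)) : Ix n M) ≠ sl ((x, y, (N : ZMod M)) : Ix n M) := by
      intro hs
      have h5 := (sl_inj hs).2.2
      have h6 := val_lo (M := M) (j := N) (by omega) h4
      have h7 := val_lo (M := M) (j := N - 1) (by omega) (by omega)
      omega
    obtain ⟨k1, k2⟩ := cr_ix (D := D) hrot hC (by tauto) (by tauto) hs
    have := hcl _ _ k1
    have k3 := Xl_near3 (P1 := pb K ψ τ ((x, y, ((N - 1 : ℤ) : ZMod M)) : Ix n M))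
      (P2 := pb K ψ τ ((x, y, (N : ZMod M)) : Ix n M)) k1 k2
    have k4 : pb K ψ τ ((x, y, ((N - 1 : ℤ) : ZMod M)) : Ix n M) = e (tt (N - 1)) := by
      rw [pb_pos (by omega) (by omega), he, htt]
    have k5 : pb K ψ τ ((x, y, (N : ZMod M)) : Ix n M) = e (tt N) := by
      rw [pb_pos (by omega) (by omega), he, htt]
    rw [k4, k5] at k3 this
    have k6 := mul_le_mul_of_nonneg_left (step N h3 h4) hC0
    refine lt_of_le_of_lt (norm_sub_le_norm_sub_add_norm_sub _ _ _) (add_lt_add_of_lt_of_le this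
      (k3.trans k6) |>.trans_le ?_)
    linarith
  have key : ∀ N : ℤ, 1 ≤ N → N + 1 < M → ∃ t ∈ Icc (τ x y) 1,
      ‖V N - e t‖ ≤ (2 * C + 3) * θ1 * ρ ∧ ‖V (N + 1) - e t‖ ≤ (2 * C + 3) * θ1 * ρ := by
    intro N h3 h4
    have c0 : 0 ≤ C * θ1 * ρ := by positivity
    have c1 : 0 ≤ θ1 * ρ := by positivity
    have ε10 : 0 ≤ ε1 := (norm_nonneg _).trans (step 2 le_rfl (by omega))
    have c2 : 0 ≤ C * ε1 := by positivity
    rcases eq_or_lt_of_le h3 with h | h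
    · subst h
      refine ⟨τ x y, ⟨le_rfl, E.τ1.le⟩, ?_, ?_⟩
      · have e1 := norm_sub_le_norm_sub_add_norm_sub (V 1) (p + ρ * D x y) (e (τ x y))
        rw [norm_sub_rev (p + ρ * D x y)] at e1
        linarith
      · have := vN 2 le_rfl (by omega)
        rw [show (2:ℤ) - 1 = 1 by norm_num, tt1] at this
        rw [show (1:ℤ) + 1 = 2 by norm_num]
        linarith
    · refine ⟨tt (N - 1), ttI _ (by omega) (by omega), ?_, ?_⟩
      · have := vN N (by omega) (by omega)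
        linarith
      · have e1 := vN (N + 1) (by omega) h4
        have e2 := step N (by omega) (by omega)
        rw [add_sub_cancel_right] at e1
        have e3 := norm_sub_le_norm_sub_add_norm_sub (V (N + 1)) (e (tt N)) (e (tt (N - 1)))
        linarith
  have hseg : ∀ s ∈ Icc (0:ℝ) 1, PP d κ (sc M y' x y) s = V 0 + s * (V 1 - V 0) := by
    intro s hs
    rw [hV]
    rcases lt_or_eq_of_le hs.2 with h | h
    · have hf : ⌊s⌋ = 0 := Int.floor_eq_iff.2 ⟨by simpa using hs.1, by simpa using h⟩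
      unfold PP
      rw [hf, zero_add, Int.fract, hf]
      push_cast
      rw [sub_zero]
    · rw [h]
      unfold PP
      simp
  have hVp : ‖V 0 - p‖ ≤ θ1 * ρ / 2 := v0.le.trans h2
  have hV1 : ‖V 1 - (p + ρ * D x y)‖ ≤ (2 * C + 1) * θ1 * ρ := by
    have c1 : 0 ≤ θ1 * ρ := by positivity
    linarith
  have hA : ArmP (PP d κ (sc M y' x y)) (3 * M / 4) (V 0) (V 1) T θ := by
    refine arm_mk (by linarith) hT hD hC0 hρ hθ1 hseg (p := p) ?_ hV1 (fun s hs => ?_) hθ hθ2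
    · have c1 : 0 ≤ θ1 * ρ := by positivity
      linarith
    · obtain ⟨N, hN⟩ : ∃ N, N = ⌊s⌋ := ⟨_, rfl⟩
      have n1 : 1 ≤ N := by rw [hN]; exact Int.le_floor.2 (by exact_mod_cast hs.1)
      have n2 : N + 1 < M := by
        have a1 := Int.floor_le s
        rw [← hN] at a1
        have a2 : (N:ℝ) + 1 < M := by linarith [hs.2]
        exact_mod_cast a2
      obtain ⟨t, ht, g1, g2⟩ := key N n1 n2
      refine ⟨e t, ?_, ?_, ?_⟩
      · have f0 := Int.fract_nonneg s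
        have f1 := (Int.fract_lt_one s).le
        have e1 : PP d κ (sc M y' x y) s - e t =
            ((1 - Int.fract s : ℝ) : ℂ) * (V N - e t) +
            ((Int.fract s : ℝ) : ℂ) * (V (N + 1) - e t) := by
          rw [hV, hN]
          unfold PP
          push_cast; ring
        rw [e1]
        refine (norm_add_le _ _).trans ?_
        rw [norm_mul, norm_mul, norm_real, norm_real, Real.norm_eq_abs, Real.norm_eq_abs,
          abs_of_nonneg f0, abs_of_nonneg (by linarith)]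
        nlinarith
      · rw [he, hp]
        exact E.cone t ⟨E.τ0.le.trans ht.1, ht.2⟩
      · rw [he, hp]
        exact E.far t ht
  rw [hV, hp] at *
  refine ⟨hA, hVp, ?_⟩
  have hsm : (8 * C + 18) * θ1 ≤ 1 / 100 := hθ.trans hθ2
  have h3 : 1 - θ1 ≤ ‖D x y‖ := by
    have := norm_sub_norm_le T (T - D x y)
    rw [sub_sub_cancel, hT, norm_sub_rev] at this
    linarith
  have e : (ρ:ℂ) * D x y = (Vp d κ (sc M y' x y) 1 - Vp d κ (sc M y' x y) 0) -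
      (Vp d κ (sc M y' x y) 1 - (ψ (Pi.single x 1) + ρ * D x y)) +
      (Vp d κ (sc M y' x y) 0 - ψ (Pi.single x 1)) := by ring
  have h4 : ‖(ρ:ℂ) * D x y‖ = ρ * ‖D x y‖ := by
    rw [norm_mul, norm_real, Real.norm_of_nonneg hρ.le]
  have h5 := norm_add_le ((Vp d κ (sc M y' x y) 1 - Vp d κ (sc M y' x y) 0) -
      (Vp d κ (sc M y' x y) 1 - (ψ (Pi.single x 1) + ρ * D x y)))
      (Vp d κ (sc M y' x y) 0 - ψ (Pi.single x 1))
  rw [← e, h4] at h5
  have h6 := norm_sub_le (Vp d κ (sc M y' x y) 1 - Vp d κ (sc M y' x y) 0)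
      (Vp d κ (sc M y' x y) 1 - (ψ (Pi.single x 1) + ρ * D x y))
  have h7 := mul_le_mul_of_nonneg_left h3 hρ.le
  have c0 : 0 ≤ C * θ1 := by positivity
  have h8 : ρ / 2 ≤ ρ * (1 - θ1) - (2 * C + 1) * θ1 * ρ - θ1 * ρ / 2 := by
    have : 1 / 2 ≤ (1 - θ1) - (2 * C + 1) * θ1 - θ1 / 2 := by nlinarith
    have := mul_le_mul_of_nonneg_left this hρ.le
    linarith
  linarith

end Pool.Agent.H687.TG
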