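import Pool.Agent.H687.TG.Dart
import Pool.Agent.H687.TC.Sub

/-! Charges of the arms at a vertex; closeness; indices of the arms. -/

set_option autoImplicit false
open Complex Set Topology Metric

namespace Pool.Agent.H687.TG

open Pool.Agent.H763R2 Pool.Agent.H763R2.An Pool.Agent.Y535.PEG Pool.Agent.H687.K4
open Pool.Agent.H687.TC (Xl_near3 Xl_pt cr_Xl close_gen cr_rot ArmP arm_mk NiceE Vp_zero Vp_pos Bx
  indep split)

theorem vertex {ι : Type*} {n M K : ℕ} {ψ : (Fin n → ℝ) → ℂ} {d : Ix n M → ℂ} {κ : Ix n M → ℝ}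
    (hM : 8 ≤ M) {rot : ℂ} {D : Fin n → Fin n → ℂ} {τ : Fin n → Fin n → ℝ}
    {C θ θ1 ε1 ε'' : ℝ} {ρ : ι → ℝ} {T : ι → ℂ} {x : Fin n} {y : ι → Fin n}
    (hrot : ‖rot‖ = 1) (hx : x.val < K)
    (hxy : ∀ i, x < y i) (hyi : Function.Injective y)
    (hC : (1 + 2 * (n:ℝ) * n) * (1 + 2 * n * n) ≤ C)
    (hT : ∀ i, ‖T i‖ = 1) (hD : ∀ i, ‖D x (y i) - T i‖ ≤ θ1) (hθ1 : 0 ≤ θ1) (G : Gf d κ)
    (hcl : ∀ i j : Ix n M, An.cr (dd K rot D i) (dd K rot D j) ≠ 0 →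
      ‖Xl (d i) (d j) (κ i) (κ j) - Xl (dd K rot D i) (dd K rot D j)
        (An.cr (dd K rot D i) (pb K ψ τ i)) (An.cr (dd K rot D j) (pb K ψ τ j))‖ < ε'')
    (hDD : ∀ i j, i ≠ j → An.cr (D x (y j)) (D x (y i)) ≠ 0)
    (hDr : ∀ i, An.cr (D x (y i)) (rot * d0 ((x, y i, ((1 : ℤ) : ZMod M)) : Ix n M)) ≠ 0 ∧
      ‖D x (y i)‖ * ‖rot * d0 ((x, y i, ((1 : ℤ) : ZMod M)) : Ix n M)‖ ≤
        C * |An.cr (D x (y i)) (rot * d0 ((x, y i, ((1 : ℤ) : ZMod M)) : Ix n M))|)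
    (E : ∀ i, NiceE ψ x (y i) (T i) (ρ i) (τ x (y i)) θ1)
    (hMτ : ∀ i, 1 / ((M:ℝ) - 1) ≤ τ x (y i))
    (hε1 : ∀ i, ∀ s ∈ Icc (0:ℝ) 1, ∀ t ∈ Icc (0:ℝ) 1, |s - t| ≤ 1 / ((M:ℝ) - 1) →
      ‖ψ (ep x (y i) s) - ψ (ep x (y i) t)‖ ≤ ε1)
    (h1 : ∀ i, (C + 1) * ε1 ≤ θ1 * ρ i / 2) (h2 : ∀ i, ε'' ≤ θ1 * ρ i / 2)
    (hθ : (8 * C + 18) * θ1 ≤ θ) (hθ2 : θ ≤ 1 / 100) :
    (∀ i j, i ≠ j → ArmP (PP d κ (sc M (y j) x (y i))) (3 * M / 4)
      (Vp d κ (sc M (y j) x (y i)) 0) (Vp d κ (sc M (y j) x (y i)) 1) (T i) θ) ∧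
    ∃ f : ι → ZMod 2, ∀ i j, i ≠ j → Bx d κ x (y i) (y j) = f i := by
  classical
  have key := fun i j (hij : i ≠ j) => armP (ψ := ψ) (d := d) (κ := κ) hM (D := D) (τ := τ)
    (y := y i) (y' := y j) hrot hx (hxy i)
    (hxy j) hC (hT i) (hD i) hθ1 hcl (hDD i j hij) (hDr i) (E i) (hMτ i) (hε1 i) (h1 i) (h2 i) hθ hθ2
  refine ⟨fun i j hij => (key i j hij).1, fun i => if h : ∃ j, i ≠ j then
    Bx d κ x (y i) (y h.choose) else 0, fun i j hij => ?_⟩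
  have hex : ∃ j, i ≠ j := ⟨j, hij⟩
  simp only [dif_pos hex]
  have hC0 : 0 ≤ C := le_trans (by positivity) hC
  have c0 : 0 ≤ C * θ1 := by positivity
  have hsm : (8 * C + 18) * θ1 ≤ 1 / 100 := hθ.trans hθ2
  exact indep G hM (hxy i) (hxy j) (hxy _) (hyi.ne hij.symm) (hyi.ne hex.choose_spec.symm) (hT i)
    hθ2 (θ1 := θ1) (ρ := ρ i) (by linarith) (E i).hρ (key i j hij) (key i _ hex.choose_spec)

/-- distance of the base points to the curve -/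
theorem pb_near {n L M K : ℕ} {v : ℤ → Fin n} {ψ : (Fin n → ℝ) → ℂ} (W : Walk L v) (hM : 2 ≤ M)
    {τ : Fin n → Fin n → ℝ} {ρ0 ε' : ℝ} (hρ0 : 0 ≤ ρ0)
    (hτ : ∀ x y, ∀ t ∈ Icc 0 (τ x y), ‖ψ (ep x y t) - ψ (Pi.single x 1)‖ ≤ ρ0)
    (hf : ∀ s t : ℝ, |s - t| ≤ 3 / ((L * M : ℕ) : ℝ) → ‖cv ψ L v s - cv ψ L v t‖ < ε')
    (N : ℤ) (t : ℝ) (ht : |t - N / ((L * M : ℕ) : ℝ)| ≤ 2 / ((L * M : ℕ) : ℝ)) :
    ‖pb K ψ τ (sv M v N) - cv ψ L v t‖ ≤ 2 * ρ0 + ε' := by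
  have h3 := W.L3
  have h4 : 0 < L * M := by positivity
  have hm0 : (0:ℝ) < ((L * M : ℕ) : ℝ) := by exact_mod_cast h4
  have h2 : (2:ℝ) ≤ M := by exact_mod_cast hM
  have hM1 : (0:ℝ) < (M:ℝ) - 1 := by linarith
  have key : ∀ z : Ix n M, ‖pb K ψ τ z - p0 ψ z‖ ≤ 2 * ρ0 := by
    intro z
    have hz : (0:ℝ) ≤ (z.2.2.val : ℝ) / ((M:ℝ) - 1) := by positivity
    unfold pb p0
    split_ifs with h
    · rw [h.2]
      have : ep z.1 z.2.1 (((0:ℕ):ℝ) / ((M:ℝ) - 1)) = Pi.single z.1 1 := by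
        unfold ep; simp
      rw [this, sub_self, norm_zero]
      positivity
    · rcases le_total (τ z.1 z.2.1) ((z.2.2.val : ℝ) / ((M:ℝ) - 1)) with h' | h'
      · rw [max_eq_left h', sub_self, norm_zero]
        positivity
      · rw [max_eq_right h']
        have a1 := hτ z.1 z.2.1 _ ⟨hz.trans h', le_rfl⟩
        have a2 := hτ z.1 z.2.1 _ ⟨hz, h'⟩
        have a3 := norm_sub_le (ψ (ep z.1 z.2.1 (τ z.1 z.2.1)) - ψ (Pi.single z.1 1))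
          (ψ (ep z.1 z.2.1 ((z.2.2.val : ℝ) / ((M:ℝ) - 1))) - ψ (Pi.single z.1 1))
        rw [sub_sub_sub_cancel_right] at a3
        linarith
  have k1 := key (sv M v N)
  have e1 := W.p0_sv (ψ := ψ) hM N
  have b1 := tau_bd (L := L) (by omega) hM N
  rw [abs_le] at ht
  set mm := ((L * M : ℕ) : ℝ)
  have q3 : ((N:ℝ) + 1) / mm = (N:ℝ) / mm + 1 / mm := by rw [add_div]
  have q4 : (2:ℝ) / mm = 1 / mm + 1 / mm := by ring
  have q5 : (3:ℝ) / mm = 1 / mm + 1 / mm + 1 / mm := by ring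
  have q6 : 0 < 1 / mm := by positivity
  rw [q3] at b1
  have f1 := hf (tau L M N) t (by
    rw [q5, abs_le]; constructor <;> linarith [b1.1, b1.2, ht.1, ht.2])
  rw [← e1] at f1
  have := norm_sub_le_norm_sub_add_norm_sub (pb K ψ τ (sv M v N)) (p0 ψ (sv M v N)) (cv ψ L v t)
  linarith

variable {K m : ℕ} {s t : Fin m → Fin K}

open Classical in
/-- the arm of a pair of vertices -/
noncomputable def code (s t : Fin m → Fin K) (x y : Fin (K + 2 * m)) : Option (Dart m) :=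
  if h : ∃ e, x = vP m (src s t e) ∧ y = vd K e then some h.choose else none

theorem code_e (e : Dart m) : code s t (vP m (src s t e)) (vd K e) = some e := by
  have h : ∃ f, vP m (src s t e) = vP m (src s t f) ∧ vd K e = vd K f := ⟨e, rfl, rfl⟩
  unfold code
  rw [dif_pos h]
  rw [← vd_inj h.choose_spec.2]

theorem code_cases (x y : Fin (K + 2 * m)) : code s t x y = none ∨
    ∃ e, x = vP m (src s t e) ∧ y = vd K e := by
  unfold code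
  split_ifs with h1
  · exact Or.inr h1
  · exact Or.inl rfl

/-- the neighbours of a vertex of the walk at a point -/
theorem wv_nb {l : ℕ} {e : ZMod l → Dart m}
    (hn : ∀ q, src s t (rv (e q)) = src s t (e (q + 1))) (k : ℤ) (h : (wv s t e k).val < K) :
    ∃ q : ℤ, k = 3 * q ∧ wv s t e k = vP m (src s t (e (q : ZMod l))) ∧
      wv s t e (k - 1) = vd K (rv (e ((q : ZMod l) - 1))) ∧
      wv s t e (k + 1) = vd K (e (q : ZMod l)) ∧
      src s t (rv (e ((q : ZMod l) - 1))) = src s t (e (q : ZMod l)) := by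
  obtain ⟨q, a, ha, rfl⟩ : ∃ q a : ℤ, (a = 0 ∨ a = 1 ∨ a = 2) ∧ k = 3 * q + a :=
    ⟨k / 3, k % 3, by omega, by omega⟩
  rcases ha with rfl | rfl | rfl
  · refine ⟨q, by ring, by rw [add_zero, wv0], ?_, by rw [add_zero, wv1], ?_⟩
    · rw [show 3 * q + 0 - 1 = 3 * (q - 1) + 2 by ring, wv2]
      push_cast
      rfl
    · have := hn ((q : ZMod l) - 1)
      rwa [sub_add_cancel] at this
  · rw [wv1, vd_val] at h; omega
  · rw [wv2, vd_val] at h; omega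

/-- sums over the walk -/
theorem sum3 {A : Type*} [AddCommGroup A] (l : ℕ) (g : ℤ → A) :
    ∑ k ∈ Finset.Ico (0:ℤ) ((3 * l : ℕ) : ℤ), g k =
      ∑ q ∈ Finset.range l, (g (3 * (q:ℤ)) + g (3 * (q:ℤ) + 1) + g (3 * (q:ℤ) + 2)) := by
  rw [sum_Ico_range]
  induction l with
  | zero => simp
  | succ l ih =>
    rw [Finset.sum_range_succ, ← ih, show 3 * (l + 1) = 3 * l + 1 + 1 + 1 by ring,
      Finset.sum_range_succ, Finset.sum_range_succ, Finset.sum_range_succ]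
    push_cast
    abel

theorem sum_zmod {A : Type*} [AddCommGroup A] (l : ℕ) [NeZero l] (g : ZMod l → A) :
    ∑ q ∈ Finset.range l, g ((q : ℤ) : ZMod l) = ∑ q, g q := by
  refine Finset.sum_bij (fun q _ => ((q : ℤ) : ZMod l)) (fun q _ => Finset.mem_univ _) ?_ ?_ ?_
  · intro a ha b hb h
    rw [Finset.mem_range] at ha hb
    simp only [Int.cast_natCast] at h
    rw [ZMod.natCast_eq_natCast_iff] at h
    exact Nat.ModEq.eq_of_lt_of_lt h ha hb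
  · intro q _
    refine ⟨q.val, Finset.mem_range.2 (ZMod.val_lt q), ?_⟩
    simp
  · intro q _; rfl

theorem sum_shift {A : Type*} [AddCommGroup A] (l : ℕ) [NeZero l] (g : ZMod l → A) :
    ∑ q, g (q - 1) = ∑ q, g q :=
  Fintype.sum_equiv (Equiv.subRight (1 : ZMod l)) _ _ fun _ => rfl

end Pool.Agent.H687.TG
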